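import Pool.Agent.Y707.DP.Base
import Pool.Agent.Y707.DK.Cls

/-! **The class group of the product of a hyperelliptic curve with itself.** -/

set_option autoImplicit false
set_option maxHeartbeats 200000

namespace Pool.Agent.Y707.DP

open Polynomial Pool.Agent.TH943.HJ Pool.Agent.Y707.PC Pool.Agent.Y707.SF Pool.Agent.Y707.DK
open scoped nonZeroDivisors

section
variable {A : Type} [CommRing A]

theorem span_pq {s t F H α β γ δ : A} (hst : s * t = F * H)
    (h1 : α * s + β * t + γ * F + δ * H = 1) :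
    Ideal.span {F, s} * Ideal.span {H, s} = Ideal.span {s} := by
  apply le_antisymm
  · rw [Ideal.span_mul_span', Ideal.span_le]
    rintro z hz
    obtain ⟨x, hx, z', hz', rfl⟩ := Set.mem_mul.1 hz
    rw [SetLike.mem_coe, Ideal.mem_span_singleton]
    rcases hx with rfl | rfl <;> rcases hz' with rfl | rfl
    · exact ⟨t, hst.symm⟩
    · exact dvd_mul_left _ _
    · exact dvd_mul_right _ _
    · exact dvd_mul_right _ _
  · rw [Ideal.span_singleton_le_iff_mem]
    have e : s = α * (s * s) + β * (F * H) + γ * (F * s) + δ * (s * H) := by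
      linear_combination (-s) * h1 + β * hst
    have m1 : F ∈ Ideal.span ({F, s} : Set A) := Ideal.subset_span (Set.mem_insert _ _)
    have m2 : s ∈ Ideal.span ({F, s} : Set A) :=
      Ideal.subset_span (Set.mem_insert_of_mem _ rfl)
    have m3 : H ∈ Ideal.span ({H, s} : Set A) := Ideal.subset_span (Set.mem_insert _ _)
    have m4 : s ∈ Ideal.span ({H, s} : Set A) :=
      Ideal.subset_span (Set.mem_insert_of_mem _ rfl)
    have key : α * (s * s) + β * (F * H) + γ * (F * s) + δ * (s * H) ∈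
        Ideal.span ({F, s} : Set A) * Ideal.span ({H, s} : Set A) := by
      refine add_mem (add_mem (add_mem ?_ ?_) ?_) ?_
      · exact Ideal.mul_mem_left _ _ (Ideal.mul_mem_mul m2 m4)
      · exact Ideal.mul_mem_left _ _ (Ideal.mul_mem_mul m1 m3)
      · exact Ideal.mul_mem_left _ _ (Ideal.mul_mem_mul m1 m4)
      · exact Ideal.mul_mem_left _ _ (Ideal.mul_mem_mul m2 m3)
    rwa [← e] at key

end

section
variable {S : Type} [CommRing S] [IsDomain S] {f : S[X]}

theorem sm_le' [IsDomain (SR f)] : Sm f ≤ (SR f)⁰ := by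
  rintro _ ⟨s, hs, rfl⟩
  apply mem_nonZeroDivisors_of_ne_zero
  intro h0
  have h1 : (pq (C s) : SR f) = 0 := h0
  have h2 := pq_inj (h1.trans (map_zero pq).symm)
  rw [C_eq_zero] at h2
  exact nonZeroDivisors.ne_zero hs h2

theorem sm_factors' [UniqueFactorizationMonoid S] (hf : f.Monic) (hodd : Odd f.natDegree)
    (s : SR f) (hs : s ∈ Sm f) :
    ∃ g : Multiset (SR f), (∀ b ∈ g, Prime b) ∧ Associated g.prod s := by
  obtain ⟨t, ht, rfl⟩ := hs
  obtain ⟨g, hg, hgt⟩ := UniqueFactorizationMonoid.exists_prime_factors t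
    (nonZeroDivisors.ne_zero ht)
  refine ⟨g.map ((pq (f := f)).comp C), ?_, ?_⟩
  · intro b hb
    obtain ⟨p, hp, rfl⟩ := Multiset.mem_map.1 hb
    exact prime_SR hf hodd (hg p hp)
  · have h1 : (g.map ((pq (f := f)).comp C)).prod = ((pq (f := f)).comp C) g.prod :=
      (map_multiset_prod _ _).symm
    rw [h1]
    exact hgt.map ((pq (f := f)).comp C)

variable {N M' : Type} [Field N] [Algebra S N] [IsFractionRing S N] [Field M'] [Algebra M' N]
  {κ : Type} [Fintype κ] {φ : κ → M'[X]} {y : S} {ψ : κ → S[X]}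

/-- **The class group.** -/
theorem alg_self [UniqueFactorizationMonoid S] (h2 : (2 : N) ≠ 0)
    (hω : Transcendental M' (algebraMap S N y))
    (hL : ∀ z : N, ∃ p q : M'[X], aeval (algebraMap S N y) q ≠ 0 ∧
      z * aeval (algebraMap S N y) q = aeval (algebraMap S N y) p)
    (hφ : ∀ i, Irreducible (φ i)) (hm : ∀ i, (φ i).Monic) (hinj : Function.Injective φ)
    (hD : Odd (∏ i, φ i).natDegree)
    (hsq : Squarefree (gg (algebraMap S N y) (∏ i, φ i) 0))
    (hF : gg (algebraMap S N y) (∏ i, φ i) 0 = f.map (algebraMap S N))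
    (hf : f.Monic) (hodd : Odd f.natDegree)
    (hψ : ∀ i, (ψ i).map (algebraMap S N) = up (φ i))
    (hinv : ∀ i, ∃ Q : Ideal (SR f), Ideal.span {pq (ψ i), yq f - pq (C y)} * Q =
      Ideal.span {yq f - pq (C y)}) :
    ∃ _ : IsDomain (SR f),
    Module.Free ℤ (Additive (ClassGroup (SR f))) ∧
    Module.Finite ℤ (Additive (ClassGroup (SR f))) ∧
    Module.finrank ℤ (Additive (ClassGroup (SR f))) = Fintype.card κ - 1 := by
  classical
  have hdomA : IsDomain (SR f) := isDomain_SR hf hodd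
  refine ⟨hdomA, ?_⟩
  obtain ⟨ω, hωd⟩ : ∃ ω, ω = algebraMap S N y := ⟨_, rfl⟩
  rw [← hωd] at hω hL hsq hF
  have hb : 2 * (0 : M'[X]).natDegree < (∏ i, φ i).natDegree := by
    rw [natDegree_zero, mul_zero]
    exact hD.pos
  have hodd2 : Odd (gg ω (∏ i, φ i) 0).natDegree := (deg_gg hD hb).1
  have hdomD : IsDomain (CR (gg ω (∏ i, φ i) 0)) := isDomain hodd2
  obtain ⟨k1, k2, k3⟩ := alg_quad h2 hω hL hφ hm hinj hD hb hsq
  have hded : IsDedekindDomain (CR (gg ω (∏ i, φ i) 0)) := dedekind h2 hodd2 hsq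
  letI ialg : Algebra (SR f) (CR (gg ω (∏ i, φ i) 0)) := (red (algebraMap S N) hF).toAlgebra
  have hloc : IsLocalization (Sm f) (CR (gg ω (∏ i, φ i) 0)) := isLocalization_SR hF
  have hal : ∀ z : SR f, algebraMap (SR f) (CR (gg ω (∏ i, φ i) 0)) z =
      red (algebraMap S N) hF z := fun z => rfl
  have hinjr : Function.Injective (algebraMap (SR f) (CR (gg ω (∏ i, φ i) 0))) :=
    red_inj _ hF (IsFractionRing.injective S N)
  have htf : Module.IsTorsionFree (SR f) (CR (gg ω (∏ i, φ i) 0)) :=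
    Module.isTorsionFree_iff_algebraMap_injective.mpr hinjr
  have hinj2 := extended_injective (B := CR (gg ω (∏ i, φ i) 0)) (Sm f) (sm_factors' hf hodd)
    sm_le'
  have hcc : (cc ω (0 : M'[X]) : N[X]) = C ω := by
    have h3 : (up (0 : M'[X]) : N[X]) = 0 := Polynomial.map_zero _
    unfold cc
    rw [h3, add_zero]
  -- surjectivity
  have hrange : (ClassGroup.extendedHom (SR f) (CR (gg ω (∏ i, φ i) 0))).range = ⊤ := by
    refine gen2 h2 hω hL hD hb _ fun 𝔭 h0 hp hmem => ?_
    have h3 : (pp (up (∏ i, φ i)) : CR (gg ω (∏ i, φ i) 0)) ∈ 𝔭 := by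
      rw [← sg_ta]
      exact 𝔭.mul_mem_right _ hmem
    rw [up_prod, map_prod] at h3
    obtain ⟨i, -, hi⟩ := (hp.prod_mem_iff).1 h3
    have h4 := prime_over (irr_up hω hL (hφ i) (hm i)) hp hi hmem
    have hm' : 𝔭 = (Ideal.span {pq (ψ i), yq f - pq (C y)}).map
        (algebraMap (SR f) (CR (gg ω (∏ i, φ i) 0))) := by
      rw [h4, Ideal.map_span, Set.image_pair, hal, hal,
        map_sub (red (algebraMap S N) hF) (yq f), red_pq, red_pq, red_yq, Polynomial.map_C,
        hψ, ← hωd, hcc]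
      rfl
    obtain ⟨Q, hQ⟩ := hinv i
    have hne : (yq f - pq (C y) : SR f) ≠ 0 := by
      intro h5
      have h6 : (eq' (-C y) 1 : SR f) = 0 := by
        unfold eq'
        rw [map_neg, map_one, one_mul]
        rw [← h5]
        ring
      exact one_ne_zero (eq'_zero h6).2
    have h5 : (Ideal.span {pq (ψ i), yq f - pq (C y)}).map
        (algebraMap (SR f) (CR (gg ω (∏ i, φ i) 0))) ∈
        (Ideal (CR (gg ω (∏ i, φ i) 0)))⁰ := by
      rw [← hm']
      exact h0
    have h6 := mem_range hne hQ h5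
    have h7 : (⟨𝔭, h0⟩ : (Ideal (CR (gg ω (∏ i, φ i) 0)))⁰) = ⟨_, h5⟩ := Subtype.ext hm'
    rw [h7]
    exact h6
  have hsurj : Function.Surjective
      (ClassGroup.extendedHom (SR f) (CR (gg ω (∏ i, φ i) 0))) :=
    MonoidHom.range_eq_top.1 hrange
  let e := MulEquiv.ofBijective _ ⟨hinj2, hsurj⟩
  let e' : Additive (ClassGroup (SR f)) ≃ₗ[ℤ]
      Additive (ClassGroup (CR (gg ω (∏ i, φ i) 0))) :=
    (MulEquiv.toAdditive e).toIntLinearEquiv
  refine ⟨Module.Free.of_equiv e'.symm, Module.Finite.equiv e'.symm, ?_⟩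
  rw [LinearEquiv.finrank_eq e', k3]

end

end Pool.Agent.Y707.DP
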