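import Pool.Agent.Y707.DP.Cn3

/-! The number of the solutions of `D_n(x, a) = D_n(z, a)`: the final bound. -/

set_option autoImplicit false
set_option maxHeartbeats 400000

namespace Pool.Agent.Y707.DP

open Polynomial Finset
open Pool.Agent.Y707.PC Pool.Agent.Y707.SF Pool.Agent.Y707.DK

section
variable {κ : Type} [Field κ] [Fintype κ] {m : ℕ} {a : κ}

open Classical in
/-- the number of the conditions that hold at a point -/
noncomputable def gn (m : ℕ) (a : κ) (p : κ × κ) : ℕ :=
  (if p.1 = p.2 then 1 else 0) + ((ts (AlgebraicClosure κ) m).filter fun T => on a p T).card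

open Classical in
theorem sum_gn : ∑ p : κ × κ, (gn m a p : ℝ) = Fintype.card κ +
    ∑ T ∈ ts (AlgebraicClosure κ) m, ((univ.filter fun p : κ × κ => on a p T).card : ℝ) := by
  unfold gn
  push_cast
  rw [sum_add_distrib]
  congr 1
  · rw [Fintype.sum_prod_type]
    have h1 : ∀ x : κ, ∑ y : κ, (if x = y then (1 : ℝ) else 0) = 1 := by
      intro x
      rw [sum_ite_eq, if_pos (mem_univ _)]
    rw [sum_congr rfl fun x _ => h1 x, sum_const, card_univ, nsmul_eq_mul, mul_one]
  · have h1 : ∀ p : κ × κ, (((ts (AlgebraicClosure κ) m).filter fun T => on a p T).card : ℝ) =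
        ∑ T ∈ ts (AlgebraicClosure κ) m, if on a p T then (1 : ℝ) else 0 := by
      intro p
      rw [sum_boole]
    rw [sum_congr rfl fun p _ => h1 p, sum_comm]
    refine sum_congr rfl fun T _ => ?_
    rw [sum_boole]

variable (h2 : ringChar κ ≠ 2) (hn : ((2 * m + 1 : ℕ) : κ) ≠ 0) (ha : a ≠ 0)

include h2 hn ha

open Classical in
theorem gn_bounds (p : κ × κ) :
    (if (dickson 1 a (2 * m + 1)).eval p.1 = (dickson 1 a (2 * m + 1)).eval p.2 then (1 : ℝ)
      else 0) ≤ gn m a p ∧ (gn m a p : ℝ) ≤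
    (if (dickson 1 a (2 * m + 1)).eval p.1 = (dickson 1 a (2 * m + 1)).eval p.2 then (1 : ℝ)
      else 0) + m * (if p ∈ bad m a then 1 else 0) := by
  obtain ⟨t1, t2, t3⟩ := ts_closed (F := AlgebraicClosure κ) (m := m) (closed_two h2)
    (closed_n hn)
  have hiff := mem_iff h2 hn ha p
  have hle : ((ts (AlgebraicClosure κ) m).filter fun T => on a p T).card ≤ m :=
    (card_filter_le _ _).trans t2.le
  by_cases hZ : (dickson 1 a (2 * m + 1)).eval p.1 = (dickson 1 a (2 * m + 1)).eval p.2
  · rw [if_pos hZ]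
    have hge : 1 ≤ gn m a p := by
      unfold gn
      rcases hiff.1 hZ with h | ⟨T, hT, hon⟩
      · rw [if_pos h]
        omega
      · have : 0 < ((ts (AlgebraicClosure κ) m).filter fun T => on a p T).card :=
          card_pos.2 ⟨T, mem_filter.2 ⟨hT, hon⟩⟩
        omega
    refine ⟨by exact_mod_cast hge, ?_⟩
    by_cases hb : p ∈ bad m a
    · rw [if_pos hb, mul_one]
      have h3 : gn m a p ≤ 1 + m := by
        unfold gn
        split_ifs <;> omega
      exact_mod_cast h3
    · rw [if_neg hb, mul_zero, add_zero]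
      have h3 : gn m a p ≤ 1 := by
        unfold gn
        by_cases h : p.1 = p.2
        · have h4 : ((ts (AlgebraicClosure κ) m).filter fun T => on a p T) = ∅ := by
            rw [filter_eq_empty_iff]
            intro T hT hon
            exact hb (mem_bad1 h2 hn ha h hT hon)
          rw [if_pos h, h4, card_empty]
        · rw [if_neg h, zero_add, card_le_one]
          intro T hT T' hT'
          by_contra hne
          rw [mem_filter] at hT hT'
          exact hb (mem_bad2 h2 hn ha hT.1 hT'.1 hne hT.2 hT'.2)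
      exact_mod_cast h3
  · rw [if_neg hZ, zero_add]
    have h0 : gn m a p = 0 := by
      rw [hiff, not_or] at hZ
      unfold gn
      have h4 : ((ts (AlgebraicClosure κ) m).filter fun T => on a p T) = ∅ := by
        rw [filter_eq_empty_iff]
        intro T hT hon
        exact hZ.2 ⟨T, hT, hon⟩
      rw [if_neg hZ.1, h4, card_empty]
    rw [h0, Nat.cast_zero]
    refine ⟨le_refl _, ?_⟩
    split_ifs <;> positivity

/-- the constant of the bound -/
def cm (m : ℕ) : ℝ := m * (2 * m * (2 * m + 1)) + m * (1 + 2 * m * (2 * m + 1))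

omit ha in
open Classical in
theorem card_rational : ((ts (AlgebraicClosure κ) m).filter fun T =>
    T ∈ Set.range (algebraMap κ (AlgebraicClosure κ))).card = (ts κ m).card := by
  rw [← card_image_of_injective (ts κ m) (algebraMap κ (AlgebraicClosure κ)).injective]
  congr 1
  ext T
  rw [mem_filter, mem_image]
  constructor
  · rintro ⟨hT, t, rfl⟩
    refine ⟨t, ?_, rfl⟩
    rw [mem_ts, ← psiF_map (algebraMap κ (AlgebraicClosure κ)), eval_map_apply, map_eq_zero] at hT
    exact mem_ts.2 hT
  · rintro ⟨t, ht, rfl⟩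
    refine ⟨?_, t, rfl⟩
    rw [mem_ts, ← psiF_map (algebraMap κ (AlgebraicClosure κ)), eval_map_apply, map_eq_zero]
    exact mem_ts.1 ht

open Classical in
/-- **The count.** -/
theorem count_main :
    |((univ.filter fun p : κ × κ => (dickson 1 a (2 * m + 1)).eval p.1 =
      (dickson 1 a (2 * m + 1)).eval p.2).card : ℝ) -
        Fintype.card κ * (1 + (ts κ m).card)| ≤ cm m := by
  obtain ⟨t1, t2, t3⟩ := ts_closed (F := AlgebraicClosure κ) (m := m) (closed_two h2)
    (closed_n hn)
  have hb : ((bad m a).card : ℝ) ≤ 2 * m * (2 * m + 1) := by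
    exact_mod_cast bad_card hn a
  obtain ⟨q, hq⟩ : ∃ q : ℝ, q = Fintype.card κ := ⟨_, rfl⟩
  rw [← hq]
  have hcard : ((univ.filter fun p : κ × κ => (dickson 1 a (2 * m + 1)).eval p.1 =
      (dickson 1 a (2 * m + 1)).eval p.2).card : ℝ) = ∑ p : κ × κ,
      if (dickson 1 a (2 * m + 1)).eval p.1 = (dickson 1 a (2 * m + 1)).eval p.2 then (1 : ℝ)
        else 0 := by
    rw [sum_boole]
  have h3 : ∑ p : κ × κ, (if (dickson 1 a (2 * m + 1)).eval p.1 =
      (dickson 1 a (2 * m + 1)).eval p.2 then (1 : ℝ) else 0) ≤ ∑ p : κ × κ, (gn m a p : ℝ) :=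
    sum_le_sum fun p _ => (gn_bounds h2 hn ha p).1
  have h4 : ∑ p : κ × κ, (gn m a p : ℝ) ≤ ∑ p : κ × κ, (if (dickson 1 a (2 * m + 1)).eval p.1 =
      (dickson 1 a (2 * m + 1)).eval p.2 then (1 : ℝ) else 0) + m * (bad m a).card := by
    refine (sum_le_sum fun p _ => (gn_bounds h2 hn ha p).2).trans (le_of_eq ?_)
    rw [sum_add_distrib, ← mul_sum]
    congr 2
    rw [sum_boole, filter_mem_eq_inter, univ_inter]
  -- the conics
  have h5 : |∑ T ∈ ts (AlgebraicClosure κ) m, ((univ.filter fun p : κ × κ => on a p T).card : ℝ) -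
      q * (ts κ m).card| ≤ m * (1 + 2 * m * (2 * m + 1)) := by
    have e : q * ((ts κ m).card : ℝ) = ∑ T ∈ ts (AlgebraicClosure κ) m,
        (if T ∈ Set.range (algebraMap κ (AlgebraicClosure κ)) then q else 0) := by
      rw [← sum_filter, sum_const, card_rational h2 hn, nsmul_eq_mul, mul_comm]
    rw [e, ← sum_sub_distrib]
    refine (abs_sum_le_sum_abs _ _).trans ?_
    have h6 : ∀ T ∈ ts (AlgebraicClosure κ) m,
        |((univ.filter fun p : κ × κ => on a p T).card : ℝ) -
          (if T ∈ Set.range (algebraMap κ (AlgebraicClosure κ)) then q else 0)| ≤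
        1 + 2 * m * (2 * m + 1) := by
      intro T hT
      by_cases hr : T ∈ Set.range (algebraMap κ (AlgebraicClosure κ))
      · rw [if_pos hr, hq]
        obtain ⟨t, ht⟩ := hr
        refine (conic_in h2 hn ha t ht).trans ?_
        have : (0 : ℝ) ≤ 2 * m * (2 * m + 1) := by positivity
        linarith
      · rw [if_neg hr, sub_zero, abs_of_nonneg (Nat.cast_nonneg _)]
        have h7 : ((univ.filter fun p : κ × κ => on a p T).card : ℝ) ≤ (bad m a).card := by
          exact_mod_cast card_le_card (conic_out h2 hn ha hT hr)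
        linarith
    refine (sum_le_card_nsmul _ _ _ h6).trans (le_of_eq ?_)
    rw [t2, nsmul_eq_mul]
  have hsum := sum_gn (m := m) (a := a)
  rw [hsum, ← hq] at h3 h4
  rw [hcard]
  have hm0 : (0 : ℝ) ≤ m := Nat.cast_nonneg _
  have h8 : (m : ℝ) * (bad m a).card ≤ m * (2 * m * (2 * m + 1)) :=
    mul_le_mul_of_nonneg_left hb hm0
  rw [abs_le] at h5 ⊢
  unfold cm
  constructor
  · linarith [h5.1]
  · have h9 : (0 : ℝ) ≤ m * (2 * m * (2 * m + 1)) := by positivity
    linarith [h5.2]

end

end Pool.Agent.Y707.DP
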