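import Pool.Agent.Y707.DP.Defs
import Pool.Agent.Y707.DP.Cn4
import Pool.Agent.Y707.SF.Avg

/-! The averages of the traces on `H²` of the squares of the curves: asymptotics. -/

set_option autoImplicit false
set_option maxHeartbeats 400000

namespace Pool.Agent.Y707.DP

open Polynomial Finset NumberField
open Pool.Agent.Y707.PC Pool.Agent.Y707.SF
open Pool.Agent.Y707.DK (traceOne traceOne_eq rs sep_of_rs)

section
variable {K : Type} [Field K] [NumberField K] {k l m : ℕ}
  {G : Fin l → MvPolynomial (Fin k) (𝓞 K)} {a : MvPolynomial (Fin k) (𝓞 K)}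
  {κ : Type} [Field κ] [Fintype κ]

open Classical in
theorem sum_goodBase (φ : 𝓞 K →+* κ) (h2 : ringChar κ ≠ 2) (T : (Fin k → κ) → κ → ℝ) :
    ∑ᶠ P ∈ goodBase m G a φ, T P.1 P.2.2 = ∑ x : Fin k → κ,
      if ∀ i, MvPolynomial.eval₂Hom φ x (G i) ≠ 0 then
      nx G φ x * ∑ w : κ, (if (memberCurve m a φ x w).Separable then T x w else 0)
      else 0 := by
  rw [finsum_mem_def, finsum_eq_sum_of_fintype]
  have h3 : (∑ P : (Fin k → κ) × (Fin l → κ) × κ, (goodBase m G a φ).indicator
      (fun P => T P.1 P.2.2) P) = ∑ z : (Fin k → κ) × (Fin l → κ) × κ, if ((∀ i, z.2.1 i ^ 2 =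
        MvPolynomial.eval₂Hom φ z.1 (G i)) ∧ (∀ i, MvPolynomial.eval₂Hom φ z.1 (G i) ≠ 0) ∧
        (memberCurve m a φ z.1 z.2.2).Separable) then T z.1 z.2.2 else 0 := by
    refine sum_congr rfl fun z _ => ?_
    rw [Set.indicator_apply]
    refine if_congr ?_ rfl rfl
    unfold goodBase
    rw [Set.mem_setOf_eq]
    constructor
    · rintro ⟨-, h, hs⟩
      exact ⟨fun i => (h i).1, fun i h0 => (h i).2 (eq_zero_of_pow_eq_zero ((h i).1.trans h0)), hs⟩
    · rintro ⟨h, hG, hs⟩
      exact ⟨Ring.two_ne_zero h2, fun i => ⟨h i, fun h0 => hG i (by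
        rw [← h i, h0, zero_pow two_ne_zero])⟩, hs⟩
  rw [h3, Fintype.sum_prod_type]
  refine sum_congr rfl fun x _ => ?_
  rw [Fintype.sum_prod_type]
  by_cases hG : ∀ i, MvPolynomial.eval₂Hom φ x (G i) ≠ 0
  · rw [if_pos hG, nx, ← card_sqrts h2, sum_mul]
    refine sum_congr rfl fun y _ => ?_
    rw [mul_sum]
    refine sum_congr rfl fun w _ => ?_
    by_cases h4 : ∀ i, y i ^ 2 = MvPolynomial.eval₂Hom φ x (G i)
    · rw [if_pos h4, one_mul]
      by_cases h5 : (memberCurve m a φ x w).Separable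
      · rw [if_pos h5, if_pos ⟨h4, hG, h5⟩]
      · rw [if_neg h5, if_neg fun h => h5 h.2.2]
    · rw [if_neg h4, zero_mul, if_neg fun h => h4 h.1]
  · rw [if_neg hG]
    refine sum_eq_zero fun y _ => sum_eq_zero fun w _ => ?_
    rw [if_neg fun h => hG h.2.1]

theorem tr_abs (h2 : ringChar κ ≠ 2) (φ : 𝓞 K →+* κ) (x : Fin k → κ) (w : κ) :
    |traceOne (memberCurve m a φ x w)| ≤ 2 * m * Real.sqrt (Fintype.card κ) := by
  rw [traceOne_eq h2, abs_neg]
  have h3 := pol_deg (m := m) (a := a) (MvPolynomial.eval₂Hom φ x) w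
  exact weil_odd h2 h3.1 h3.2

theorem tr_two (h2 : ringChar κ ≠ 2) (φ : 𝓞 K →+* κ) (x : Fin k → κ) (w : κ) :
    0 ≤ traceSquare (memberCurve m a φ x w) ∧
      traceSquare (memberCurve m a φ x w) ≤ (2 + 4 * m ^ 2) * Fintype.card κ := by
  have h1 := tr_abs (m := m) (a := a) h2 φ x w
  have hq : (0 : ℝ) ≤ Fintype.card κ := Nat.cast_nonneg _
  have h3 : traceOne (memberCurve m a φ x w) ^ 2 ≤ 4 * m ^ 2 * Fintype.card κ := by
    have h4 := pow_le_pow_left₀ (abs_nonneg _) h1 2
    rw [sq_abs, mul_pow, Real.sq_sqrt hq] at h4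
    refine h4.trans (le_of_eq ?_)
    ring
  unfold traceSquare
  rw [Nat.card_eq_fintype_card]
  constructor
  · positivity
  · linarith

open Classical in
/-- the sum over all members -/
theorem sum_two (h2 : ringChar κ ≠ 2) (φ : 𝓞 K →+* κ) (x : Fin k → κ)
    (hn : ((2 * m + 1 : ℕ) : κ) ≠ 0) (ha : MvPolynomial.eval₂Hom φ x a ≠ 0) :
    |∑ w : κ, traceSquare (memberCurve m a φ x w) -
      (2 + (ts κ m).card) * (Fintype.card κ : ℝ) ^ 2| ≤ cm m * Fintype.card κ := by
  obtain ⟨q, hq⟩ : ∃ q : ℝ, q = Fintype.card κ := ⟨_, rfl⟩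
  have hq0 : 0 ≤ q := by
    rw [hq]
    exact Nat.cast_nonneg _
  have h1 := second_moment h2 (dickson 1 (MvPolynomial.eval₂Hom φ x a) (2 * m + 1))
  have h3 := count_main (m := m) h2 hn ha
  rw [← hq] at h1 h3 ⊢
  have h4 : ∑ w : κ, traceSquare (memberCurve m a φ x w) = 2 * q ^ 2 +
      ∑ w : κ, traceOne (dickson 1 (MvPolynomial.eval₂Hom φ x a) (2 * m + 1) + C w) ^ 2 := by
    unfold traceSquare
    rw [sum_add_distrib, sum_const, card_univ, nsmul_eq_mul, Nat.card_eq_fintype_card, ← hq]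
    congr 1
    ring
  rw [h4, h1]
  have e : 2 * q ^ 2 + (q * ((univ.filter fun p : κ × κ =>
      (dickson 1 (MvPolynomial.eval₂Hom φ x a) (2 * m + 1)).eval p.1 =
      (dickson 1 (MvPolynomial.eval₂Hom φ x a) (2 * m + 1)).eval p.2).card : ℝ) - q ^ 2) -
      (2 + (ts κ m).card) * q ^ 2 = ((univ.filter fun p : κ × κ =>
      (dickson 1 (MvPolynomial.eval₂Hom φ x a) (2 * m + 1)).eval p.1 =
      (dickson 1 (MvPolynomial.eval₂Hom φ x a) (2 * m + 1)).eval p.2).card -
        q * (1 + (ts κ m).card)) * q := by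
    ring
  rw [e, _root_.abs_mul, abs_of_nonneg hq0]
  exact mul_le_mul_of_nonneg_right h3 hq0

theorem arith3 {q s qk S T X t B0 c Mm : ℝ} (hq : 0 < q) (hs : 1 ≤ s) (hsq : s ^ 2 = q)
    (hqk : 0 < qk) (hm : |t| ≤ Mm) (hc : 0 ≤ c) (h1 : |T| ≤ c * q * qk)
    (hS : T = S - t * (q ^ 2 * X))
    (h2 : |X - qk| * s ≤ B0 * qk) : |(qk * q)⁻¹ * S - q * t| ≤ (c + Mm * B0) * s := by
  have e : (qk * q)⁻¹ * S - q * t = (qk * q)⁻¹ * (T + t * q ^ 2 * (X - qk)) := by
    rw [hS]
    field_simp
    ring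
  have hpos : 0 < qk * q := by positivity
  have h0 : 0 ≤ Mm := (abs_nonneg _).trans hm
  have hs0 : 0 < s := by linarith
  rw [e, _root_.abs_mul, abs_of_pos (inv_pos.2 hpos), inv_mul_le_iff₀ hpos]
  have h3 : |T + t * q ^ 2 * (X - qk)| ≤ c * q * qk + Mm * q ^ 2 * |X - qk| := by
    refine (abs_add_le _ _).trans (add_le_add h1 ?_)
    rw [_root_.abs_mul, _root_.abs_mul, abs_of_pos (by positivity : 0 < q ^ 2)]
    gcongr
  have h4 : q * |X - qk| ≤ s * (B0 * qk) := by
    have h5 := mul_le_mul_of_nonneg_left h2 hs0.le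
    calc q * |X - qk| = s * (|X - qk| * s) := by rw [← hsq]; ring
      _ ≤ s * (B0 * qk) := h5
  have h6 : Mm * q ^ 2 * |X - qk| ≤ Mm * q * (s * (B0 * qk)) := by
    have h7 := mul_le_mul_of_nonneg_left h4 (mul_nonneg h0 hq.le)
    calc Mm * q ^ 2 * |X - qk| = Mm * q * (q * |X - qk|) := by ring
      _ ≤ _ := h7
  have h8 : c * q * qk ≤ c * q * qk * s := le_mul_of_one_le_right (by positivity) hs
  calc |T + t * q ^ 2 * (X - qk)| ≤ c * q * qk * s + Mm * q * (s * (B0 * qk)) := by linarith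
    _ = qk * q * ((c + Mm * B0) * s) := by ring

/-- **The averages.** -/
theorem average_asy (h : IsDickson m G a) : ∃ (B : ℝ) (c : 𝓞 K), 0 ≤ B ∧ c ≠ 0 ∧
    ∀ (κ : Type) [Field κ] [Fintype κ] (φ : 𝓞 K →+* κ), φ c ≠ 0 →
      |averageSquare m G a φ - Fintype.card κ * (2 + (ts κ m).card)| ≤
        B * Real.sqrt (Fintype.card κ) := by
  classical
  set Δ := pdisc m a with hΔ
  have hΔ0 : Δ ≠ 0 := pdisc_ne
  set N : MvPolynomial (Fin k) (𝓞 K) := (∏ i, G i) * (a * Δ.leadingCoeff) with hN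
  have hG : ∀ i, G i ≠ 0 := ne_of_ind h.independent
  have hN0 : N ≠ 0 := mul_ne_zero (prod_ne_zero_iff.2 fun i _ => hG i)
    (mul_ne_zero h.nonzero (leadingCoeff_ne_zero.2 hΔ0))
  obtain ⟨Dg, c, hDg, hc, hfam⟩ := fam_sum hN0
  obtain ⟨B0, c0, hB0, hc0, hnx⟩ := sum_nx h.independent
  set c1 : ℝ := 2 ^ l * (cm m + Δ.natDegree * (2 + 4 * m ^ 2)) with hc1
  set c2 : ℝ := 2 ^ l * ((2 + 4 * m ^ 2) + (2 + m)) with hc2
  have hcm : 0 ≤ cm m := by
    unfold cm
    positivity
  have hc10 : 0 ≤ c1 := by positivity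
  have hc20 : 0 ≤ c2 := by positivity
  refine ⟨c1 + c2 * Dg + (2 + m) * B0, 2 * ((2 * m + 1 : ℕ) * (c * c0)), by positivity,
    mul_ne_zero two_ne_zero (mul_ne_zero (by exact_mod_cast Nat.succ_ne_zero (2 * m))
      (mul_ne_zero hc hc0)), ?_⟩
  intro κ _ _ φ hφ
  rw [map_mul, map_mul, map_mul, map_ofNat, map_natCast] at hφ
  have h20 : (2 : κ) ≠ 0 := left_ne_zero_of_mul hφ
  have hn : ((2 * m + 1 : ℕ) : κ) ≠ 0 := left_ne_zero_of_mul (right_ne_zero_of_mul hφ)
  have hφc : φ c ≠ 0 := left_ne_zero_of_mul (right_ne_zero_of_mul (right_ne_zero_of_mul hφ))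
  have hφc0 : φ c0 ≠ 0 := right_ne_zero_of_mul (right_ne_zero_of_mul (right_ne_zero_of_mul hφ))
  have h2 : ringChar κ ≠ 2 := ringChar_of_two h20
  obtain ⟨hr1, hr2, hr3⟩ := sqrt_facts κ
  have hq : (0 : ℝ) < Fintype.card κ := by exact_mod_cast Fintype.card_pos (α := κ)
  set s := Real.sqrt (Fintype.card κ) with hs
  set q : ℝ := (Fintype.card κ : ℝ) with hqd
  set t : ℝ := 2 + ((ts κ m).card : ℝ) with ht
  have htb : |t| ≤ 2 + m := by
    have h3 : (ts κ m).card ≤ m := by
      have h4 : (ts κ m).card ≤ (psiF κ m).roots.card := Multiset.toFinset_card_le _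
      have h5 := card_roots' (psiF κ m)
      rw [(psiF_spec m).2] at h5
      exact h4.trans h5
    have h4 : ((ts κ m).card : ℝ) ≤ m := by exact_mod_cast h3
    rw [ht, abs_of_nonneg (by positivity)]
    linarith
  have ht0 : 0 ≤ t := by positivity
  have htr : ∀ x w, 0 ≤ traceSquare (memberCurve m a φ x w) ∧
      traceSquare (memberCurve m a φ x w) ≤ (2 + 4 * m ^ 2) * q := fun x w => tr_two h2 φ x w
  set T : (Fin k → κ) → ℝ := fun x =>
    (if ∀ i, MvPolynomial.eval₂Hom φ x (G i) ≠ 0 then nx G φ x * ∑ w : κ,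
      (if (memberCurve m a φ x w).Separable then traceSquare (memberCurve m a φ x w) else 0)
      else 0) - nx G φ x * (t * q ^ 2) with hT
  have hnn : ∀ x, 0 ≤ nx G φ x := fun x => (nx_bd φ x).1
  have hgood : ∀ x, |∑ w : κ, (if (memberCurve m a φ x w).Separable then
      traceSquare (memberCurve m a φ x w) else 0)| ≤ q * ((2 + 4 * m ^ 2) * q) := by
    intro x
    refine (abs_sum_le_sum_abs _ _).trans ?_
    have h5 : ∀ w ∈ (univ : Finset κ), |if (memberCurve m a φ x w).Separable then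
        traceSquare (memberCurve m a φ x w) else 0| ≤ (2 + 4 * m ^ 2) * q := by
      intro w _
      split_ifs
      · rw [abs_of_nonneg (htr x w).1]
        exact (htr x w).2
      · rw [abs_zero]
        positivity
    refine (sum_le_sum h5).trans (le_of_eq ?_)
    rw [sum_const, card_univ, nsmul_eq_mul]
  have h1 := hfam κ φ hφc T (c1 * q)
    (c2 * q) (by positivity) (by positivity) (by
      intro x hx
      rw [hN, map_mul, map_mul, map_prod] at hx
      have hG' : ∀ i, MvPolynomial.eval₂Hom φ x (G i) ≠ 0 := fun i =>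
        prod_ne_zero_iff.1 (left_ne_zero_of_mul hx) i (mem_univ i)
      have hax : MvPolynomial.eval₂Hom φ x a ≠ 0 := left_ne_zero_of_mul (right_ne_zero_of_mul hx)
      have hsum := sum_two (m := m) (a := a) h2 φ x hn hax
      have hΔx : Δ.map (MvPolynomial.eval₂Hom φ x) ≠ 0 :=
        SF.map_ne (right_ne_zero_of_mul (right_ne_zero_of_mul hx))
      have e : T x = nx G φ x * ((∑ w : κ, traceSquare (memberCurve m a φ x w) - t * q ^ 2) -
          ∑ w : κ, (if (memberCurve m a φ x w).Separable then 0 else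
          traceSquare (memberCurve m a φ x w))) := by
        have e1 : ∑ w : κ, (if (memberCurve m a φ x w).Separable then
            traceSquare (memberCurve m a φ x w) else 0) =
            ∑ w : κ, traceSquare (memberCurve m a φ x w) -
            ∑ w : κ, (if (memberCurve m a φ x w).Separable then 0 else
              traceSquare (memberCurve m a φ x w)) := by
          rw [← sum_sub_distrib]
          refine sum_congr rfl fun w _ => ?_
          split_ifs <;> ring
        simp only [hT]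
        rw [if_pos hG', e1]
        ring
      have h5 : ∀ w : κ, |if (memberCurve m a φ x w).Separable then (0 : ℝ) else
          traceSquare (memberCurve m a φ x w)| ≤
          if (Δ.map (MvPolynomial.eval₂Hom φ x)).eval w = 0 then ((2 + 4 * m ^ 2) * q) else 0 := by
        intro w
        split_ifs with h6 h7 h7
        · rw [abs_zero]
          positivity
        · rw [abs_zero]
        · rw [abs_of_nonneg (htr x w).1]
          exact (htr x w).2
        · refine (h6 (sep_of_rs (g := m) (pol_deg _ w).2 ?_)).elim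
          rw [hΔ, pdisc_eval] at h7
          exact h7
      have h8 : |∑ w : κ, (if (memberCurve m a φ x w).Separable then (0 : ℝ) else
          traceSquare (memberCurve m a φ x w))| ≤ Δ.natDegree * ((2 + 4 * m ^ 2) * q) := by
        refine (abs_sum_le_sum_abs _ _).trans ?_
        refine (sum_le_sum fun w _ => h5 w).trans ?_
        rw [← sum_filter, sum_const, nsmul_eq_mul]
        refine mul_le_mul_of_nonneg_right ?_ (by positivity)
        refine (card_zeros hΔx).trans ?_
        exact_mod_cast natDegree_map_le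
      rw [e, _root_.abs_mul, abs_of_nonneg (hnn x), hc1, mul_assoc]
      refine mul_le_mul (nx_bd φ x).2 ?_ (abs_nonneg _) (by positivity)
      refine (abs_sub _ _).trans ?_
      have h9 := add_le_add hsum h8
      refine h9.trans (le_of_eq ?_)
      ring) (by
      intro x
      have h6 : |T x| ≤ nx G φ x * (q * ((2 + 4 * m ^ 2) * q) + (2 + m) * q ^ 2) := by
        simp only [hT]
        have h7 : |nx G φ x * (t * q ^ 2)| ≤ nx G φ x * ((2 + m) * q ^ 2) := by
          rw [_root_.abs_mul, _root_.abs_mul, abs_of_nonneg (hnn x),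
            abs_of_pos (by positivity : 0 < q ^ 2)]
          exact mul_le_mul_of_nonneg_left (mul_le_mul_of_nonneg_right htb (by positivity)) (hnn x)
        by_cases hG' : ∀ i, MvPolynomial.eval₂Hom φ x (G i) ≠ 0
        · rw [if_pos hG']
          refine (abs_sub _ _).trans ?_
          rw [mul_add]
          refine add_le_add ?_ h7
          rw [_root_.abs_mul, abs_of_nonneg (hnn x)]
          exact mul_le_mul_of_nonneg_left (hgood x) (hnn x)
        · rw [if_neg hG', zero_sub, abs_neg]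
          refine h7.trans (mul_le_mul_of_nonneg_left ?_ (hnn x))
          have : 0 ≤ q * ((2 + 4 * m ^ 2) * q) := by positivity
          linarith
      refine h6.trans ?_
      rw [hc2]
      have h8 := mul_le_mul_of_nonneg_right (nx_bd (G := G) φ x).2
        (by positivity : 0 ≤ q * ((2 + 4 * m ^ 2) * q) + (2 + m) * q ^ 2)
      refine h8.trans (le_of_eq ?_)
      ring)
  have h3 : ∑ x, T x = ∑ᶠ P ∈ goodBase m G a φ, traceSquare (memberCurve m a φ P.1 P.2.2) -
      t * (q ^ 2 * ∑ x : Fin k → κ, nx G φ x) := by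
    rw [sum_goodBase φ h2 fun x w => traceSquare (memberCurve m a φ x w), mul_sum, mul_sum,
      ← sum_sub_distrib]
    refine sum_congr rfl fun x _ => ?_
    simp only [hT]
    ring
  have h4 := hnx κ φ hφc0
  unfold averageSquare
  rw [Nat.card_eq_fintype_card, pow_succ _ k]
  refine arith3 (c := c1 + c2 * Dg) hq hr1 hr2 (by positivity) htb (by positivity) ?_ h3 h4
  refine h1.trans (le_of_eq ?_)
  ring

end

end Pool.Agent.Y707.DP
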