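import Pool.Agent.Y707.SF.Fld

/-! The coordinate ring of `y ^ 2 = D(x) + w` over `M(w)` and its field of fractions. -/

set_option autoImplicit false
set_option maxHeartbeats 200000

namespace Pool.Agent.Y707.DP

open Polynomial Pool.Agent.TH943.HJ Pool.Agent.Y707.PC Pool.Agent.Y707.SF
open scoped nonZeroDivisors

section
variable {M B : Type} [Field M] [Field B] [Algebra M B] [CharZero M] {w : B} {D : M[X]}

/-- the polynomial `D + w` -/
noncomputable def fw (w : B) (D : M[X]) : B[X] := up D + C w

theorem ff_empty : ff D (hh (Empty.elim : Empty → M)) w = fw w D := by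
  have h : (up (1 : M[X]) : B[X]) = 1 := Polynomial.map_one _
  unfold ff fw hh
  rw [Fintype.prod_empty, h, mul_one]

theorem fw_deg (hD : Odd D.natDegree) : Odd (fw w D).natDegree ∧
    (fw w D).natDegree = D.natDegree := by
  have h1 : (hh (Empty.elim : Empty → M)).natDegree < D.natDegree := by
    rw [hh_natDegree, Fintype.card_empty]
    exact hD.pos
  have h2 := odd_ff (L := B) (ω := w) hD h1
  rwa [ff_empty] at h2

theorem fw_sep (hw : Transcendental M w) (hD : Odd D.natDegree) : (fw w D).Separable := by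
  have h0 : fw w D ≠ 0 := by
    intro h0
    have := (fw_deg (w := w) hD).1
    rw [h0, natDegree_zero] at this
    exact (by decide : ¬ Odd 0) this
  have h1 := sep_ff (L := B) hw (hh_coprime (a := D) (α := (Empty.elim : Empty → M))
    (fun j => j.elim)) hD.pos.ne' (by rw [ff_empty]; exact h0)
  rwa [ff_empty] at h1

theorem two_ne (M B : Type) [Field M] [Field B] [Algebra M B] [CharZero M] : (2 : B) ≠ 0 := by
  have : CharZero B := charZero_of_injective_algebraMap (algebraMap M B).injective
  exact two_ne_zero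

/-- **The coordinate ring is a principal ideal domain.** -/
theorem base_pid (hw : Transcendental M w)
    (hB : ∀ z : B, ∃ p q : M[X], aeval w q ≠ 0 ∧ z * aeval w q = aeval w p)
    (hD : Odd D.natDegree) :
    ∃ _ : IsDomain (CR (fw w D)), Subsingleton (Additive (ClassGroup (CR (fw w D)))) ∧
      IsPrincipalIdealRing (CR (fw w D)) := by
  have hdom : IsDomain (CR (fw w D)) := isDomain (fw_deg hD).1
  have hded : IsDedekindDomain (CR (fw w D)) := dedekind (two_ne M B) (fw_deg hD).1
    (fw_sep hw hD).squarefree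
  have h1 : (fw w D) = ff D (hh (Empty.elim : Empty → M)) w := ff_empty.symm
  have hmain : Module.Free ℤ (Additive (ClassGroup (CR (fw w D)))) ∧
      Module.Finite ℤ (Additive (ClassGroup (CR (fw w D)))) ∧
      Module.finrank ℤ (Additive (ClassGroup (CR (fw w D)))) = 0 := by
    have hdom' : IsDomain (CR (ff D (hh (Empty.elim : Empty → M)) w)) := by
      rw [← h1]
      exact hdom
    have h2 := alg_main (a := D) (α := (Empty.elim : Empty → M)) (two_ne M B) hw hB
      (fun i => i.elim) hD (by rw [Fintype.card_empty]; exact hD.pos) (fun j => j.elim)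
      (by rw [← h1]; exact (fw_sep hw hD).squarefree)
    obtain ⟨k1, k2, k3⟩ := h2
    have h4 : Nat.card {j : Empty // IsSquare (algebraMap M B (D.eval (j.elim : M)))} = 0 := by
      rw [Nat.card_eq_zero]
      exact Or.inl ⟨fun j => j.1.elim⟩
    have k3' := k3.trans h4
    clear k3
    revert hdom' k1 k2 k3'
    rw [← h1]
    intro hdom' k1 k2 k3'
    exact ⟨k1, k2, k3'⟩
  obtain ⟨k1, k2, k3⟩ := hmain
  have hsub : Subsingleton (Additive (ClassGroup (CR (fw w D)))) :=
    (Module.finrank_eq_zero_iff_of_free ℤ _).1 k3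
  refine ⟨hdom, hsub, ⟨fun I => ?_⟩⟩
  by_cases hI : I = ⊥
  · rw [hI]
    exact bot_isPrincipal
  · have h3 : ClassGroup.mk0 ⟨I, mem_nonZeroDivisors_of_ne_zero hI⟩ = 1 := by
      have h4 : Additive.ofMul (ClassGroup.mk0 ⟨I, mem_nonZeroDivisors_of_ne_zero hI⟩) =
          Additive.ofMul 1 := Subsingleton.elim _ _
      exact h4
    exact (ClassGroup.mk0_eq_one_iff _).1 h3

end

section
variable {M B M' L' N : Type} [Field M] [Field B] [Algebra M B] [CharZero M] [Field M'] [Field L']
  [Algebra M[X] M'] [IsFractionRing M[X] M'] [Algebra B[X] L'] [IsFractionRing B[X] L']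
  [Algebra M' L'] {w : B} {D : M[X]} [Field N] [Algebra (CR (fw w D)) N]
  [IsFractionRing (CR (fw w D)) N] [Algebra L' N] [Algebra M' N] [IsScalarTower M' L' N]
  (hcomp : ∀ p : M[X], algebraMap M' L' (algebraMap M[X] M' p) =
    algebraMap B[X] L' (p.map (algebraMap M B)))
  (hN : ∀ p : B[X], algebraMap L' N (algebraMap B[X] L' p) =
    algebraMap (CR (fw w D)) N (pp p))

include hcomp hN

theorem om_sq : algebraMap (CR (fw w D)) N (yy (fw w D)) ^ 2 =
    algebraMap M' N (algebraMap M[X] M' D) +
      algebraMap L' N (algebraMap B[X] L' (C w)) := by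
  rw [IsScalarTower.algebraMap_apply M' L' N, hcomp, hN, hN, ← map_pow, yy_sq, ← map_add,
    ← map_add]
  rfl

/-- `y` is transcendental over `M(x)` -/
theorem transc_y (hw : Transcendental M w) :
    Transcendental M' (algebraMap (CR (fw w D)) N (yy (fw w D))) := by
  intro halg
  have h1 := om_sq hcomp hN
  have h2 : IsAlgebraic M' (algebraMap L' N (algebraMap B[X] L' (C w))) := by
    have h3 : algebraMap L' N (algebraMap B[X] L' (C w)) =
        algebraMap (CR (fw w D)) N (yy (fw w D)) ^ 2 -
          algebraMap M' N (algebraMap M[X] M' D) := by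
      rw [h1]
      ring
    rw [h3]
    exact (halg.pow 2).sub (isAlgebraic_algebraMap _)
  exact transc_w hcomp hw ((isAlgebraic_algebraMap_iff (algebraMap L' N).injective).1 h2)

/-- `y` generates the field over `M(x)` -/
theorem gen_y (hB : ∀ z : B, ∃ p q : M[X], aeval w q ≠ 0 ∧ z * aeval w q = aeval w p) (z : N) :
    ∃ p q : M'[X], aeval (algebraMap (CR (fw w D)) N (yy (fw w D))) q ≠ 0 ∧
      z * aeval (algebraMap (CR (fw w D)) N (yy (fw w D))) q =
        aeval (algebraMap (CR (fw w D)) N (yy (fw w D))) p := by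
  obtain ⟨ω, hω⟩ : ∃ ω, ω = algebraMap (CR (fw w D)) N (yy (fw w D)) := ⟨_, rfl⟩
  rw [← hω]
  have h1 := om_sq hcomp hN
  rw [← hω] at h1
  let T := IntermediateField.adjoin M' {ω}
  have hωT : ω ∈ T := IntermediateField.mem_adjoin_simple_self M' ω
  have hwT : algebraMap L' N (algebraMap B[X] L' (C w)) ∈ T := by
    have h3 : algebraMap L' N (algebraMap B[X] L' (C w)) =
        ω ^ 2 - algebraMap M' N (algebraMap M[X] M' D) := by
      rw [h1]
      ring
    rw [h3]
    exact sub_mem (pow_mem hωT 2) (T.algebraMap_mem _)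
  have hev : ∀ q : M'[X], algebraMap L' N (aeval (algebraMap B[X] L' (C w)) q) ∈ T := by
    intro q
    rw [← aeval_algebraMap_apply]
    have h5 := IntermediateField.aeval_coe T (⟨_, hwT⟩ : T) q
    simp only at h5
    rw [h5]
    exact (aeval (⟨_, hwT⟩ : T) q).2
  have hL : ∀ c : L', algebraMap L' N c ∈ T := by
    intro c
    obtain ⟨p, q, hq, h⟩ := gen_w hcomp hB c
    have h4 : algebraMap L' N c = algebraMap L' N (aeval (algebraMap B[X] L' (C w)) p) /
        algebraMap L' N (aeval (algebraMap B[X] L' (C w)) q) := by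
      rw [← h, map_mul, mul_div_cancel_right₀]
      rw [Ne, map_eq_zero]
      exact hq
    rw [h4]
    exact div_mem (hev p) (hev q)
  have hS : ∀ c : CR (fw w D), algebraMap (CR (fw w D)) N c ∈ T := by
    intro c
    obtain ⟨p, q, rfl⟩ := exists_el c
    unfold el
    rw [map_add, map_mul, ← hN, ← hN, ← hω]
    exact add_mem (hL _) (mul_mem (hL _) hωT)
  have hz : z ∈ T := by
    obtain ⟨p, q, -, rfl⟩ := IsFractionRing.div_surjective (A := CR (fw w D)) z
    exact div_mem (hS p) (hS q)
  obtain ⟨r, s, hrs⟩ := (IntermediateField.mem_adjoin_simple_iff M' z).1 hz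
  by_cases h0 : aeval ω s = 0
  · refine ⟨0, 1, ?_, ?_⟩
    · rw [map_one]
      exact one_ne_zero
    · rw [hrs, h0, div_zero, zero_mul, map_zero]
  · exact ⟨r, s, h0, by rw [hrs, div_mul_cancel₀ _ h0]⟩

end

end Pool.Agent.Y707.DP
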