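import Pool.Agent.Y707.DP.Irr
import Pool.Agent.Y707.DK.Hom
import Pool.Agent.Y707.DK.Reg

/-! The irreducible factors of `D_n(z, a) - D_n(x, a)` over a regular extension. -/

set_option autoImplicit false
set_option maxHeartbeats 200000

namespace Pool.Agent.Y707.DP

open Polynomial
open Pool.Agent.Y707.DK (numFactors factors_spec irreducible_const)

theorem ts_closed {F : Type} [Field F] [IsAlgClosed F] {m : ℕ} (h2 : (2 : F) ≠ 0)
    (hn : ((2 * m + 1 : ℕ) : F) ≠ 0) :
    psiF F m = ∏ T ∈ ts F m, (X - C T) ∧ (ts F m).card = m ∧ ∀ T ∈ ts F m, T ≠ 2 ∧ T ≠ -2 := by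
  have : NeZero ((2 * m + 1 : ℕ) : F) := ⟨hn⟩
  obtain ⟨ζ, hζ⟩ := IsAlgClosed.exists_root (cyclotomic (2 * m + 1) F) (by
    rw [degree_cyclotomic]
    have := Nat.totient_pos.2 (Nat.succ_pos (2 * m))
    exact_mod_cast this.ne')
  exact ts_spec (isRoot_cyclotomic_iff.1 hζ) h2

theorem psiF_map {F F' : Type} [Field F] [Field F'] (σ : F →+* F') (m : ℕ) :
    (psiF F m).map σ = psiF F' m := by
  unfold psiF
  rw [Polynomial.map_map]
  congr 1
  exact RingHom.ext_int _ _

theorem psi_sep {F : Type} [Field F] {m : ℕ} (h2 : (2 : F) ≠ 0)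
    (hn : ((2 * m + 1 : ℕ) : F) ≠ 0) : (psiF F m).Separable := by
  have hinj := (algebraMap F (AlgebraicClosure F)).injective
  rw [← separable_map (algebraMap F (AlgebraicClosure F)), psiF_map]
  obtain ⟨h1, -, -⟩ := ts_closed (F := AlgebraicClosure F) (m := m) (by
    have : (2 : AlgebraicClosure F) = algebraMap F _ 2 := by rw [map_ofNat]
    rw [this, Ne, map_eq_zero]
    exact h2) (by
    have : ((2 * m + 1 : ℕ) : AlgebraicClosure F) = algebraMap F _ ((2 * m + 1 : ℕ) : F) := by
      rw [map_natCast]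
    rw [this, Ne, map_eq_zero]
    exact hn)
  rw [h1]
  exact separable_prod_X_sub_C_iff'.2 fun x _ y _ h => h

theorem dd_map {F F' : Type} [Field F] [Field F'] (σ : F →+* F') (a : F) (n : ℕ) :
    (dd a n).map (mapRingHom σ) = dd (σ a) n := by
  have h : (mapRingHom σ).comp C = C.comp σ := RingHom.ext fun z => by
    rw [RingHom.comp_apply, RingHom.comp_apply, coe_mapRingHom, Polynomial.map_C]
  unfold dd
  rw [Polynomial.map_sub, Polynomial.map_map, h, ← Polynomial.map_map, Polynomial.map_C,
    coe_mapRingHom, map_dickson σ]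

section
variable {E M : Type} [Field E] [Field M] [CharZero E] [CharZero M] [Algebra E M]

/-- **The factorization over a regular extension.** -/
theorem factors (hconst : ∀ x : M, IsAlgebraic E x → ∃ e : E, algebraMap E M e = x) {a : M}
    (ha : a ≠ 0) (m : ℕ) :
    ∃ (κ : Type) (_ : Fintype κ) (φ : Option κ → M[X][X]),
      Fintype.card κ = numFactors (psiF E m) ∧ (∀ i, Irreducible (φ i)) ∧ (∀ i, (φ i).Monic) ∧
      Function.Injective φ ∧ ∏ i, φ i = dd a (2 * m + 1) := by
  classical
  have h2E : (2 : E) ≠ 0 := two_ne_zero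
  have hnE : ((2 * m + 1 : ℕ) : E) ≠ 0 := by exact_mod_cast Nat.succ_ne_zero (2 * m)
  have h2 : (2 : AlgebraicClosure M) ≠ 0 := two_ne_zero
  have hn : ((2 * m + 1 : ℕ) : AlgebraicClosure M) ≠ 0 := by exact_mod_cast Nat.succ_ne_zero (2 * m)
  have ha' : algebraMap M (AlgebraicClosure M) a ≠ 0 := by
    rw [Ne, map_eq_zero]
    exact ha
  obtain ⟨S, hS1, hS2, hS3⟩ := factors_spec (psiF_spec (F := E) m).1 (psi_sep h2E hnE).squarefree
  obtain ⟨t1, t2, t3⟩ := ts_closed (F := AlgebraicClosure M) (m := m) h2 hn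
  -- the roots
  let ev : E[X] → AlgebraicClosure M → Prop := fun j T =>
    ((j.map (algebraMap E M)).map (algebraMap M (AlgebraicClosure M))).eval T = 0
  let R : E[X] → Finset (AlgebraicClosure M) := fun j => (ts (AlgebraicClosure M) m).filter (ev j)
  have hprodE : ∏ j ∈ S, (j.map (algebraMap E M)).map (algebraMap M (AlgebraicClosure M)) =
      psiF (AlgebraicClosure M) m := by
    rw [← psiF_map (algebraMap M (AlgebraicClosure M)), ← psiF_map (algebraMap E M), ← hS2,
      Polynomial.map_prod, Polynomial.map_prod]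
  have hR : ∀ j ∈ S, ∀ T, T ∈ R j ↔
      ((j.map (algebraMap E M)).map (algebraMap M (AlgebraicClosure M))).eval T = 0 := by
    intro j hj T
    show T ∈ (ts (AlgebraicClosure M) m).filter (ev j) ↔ _
    rw [Finset.mem_filter]
    refine ⟨fun h => h.2, fun h => ⟨mem_ts.2 ?_, h⟩⟩
    rw [← hprodE, eval_prod]
    exact Finset.prod_eq_zero hj h
  have huniq : ∀ j ∈ S, ∀ j' ∈ S, ∀ T, ev j T → ev j' T → j = j' := by
    intro j hj j' hj' T h h'
    by_contra hne
    have hcop : IsCoprime j j' := by
      refine (hS1 j hj).1.coprime_iff_not_dvd.2 fun hd => hne ?_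
      exact eq_of_monic_of_associated (hS1 j hj).2.1 (hS1 j' hj').2.1
        ((hS1 j hj).1.associated_of_dvd (hS1 j' hj').1 hd)
    obtain ⟨u, v, huv⟩ := hcop
    have h3 := congrArg (fun p => ((p.map (algebraMap E M)).map
      (algebraMap M (AlgebraicClosure M))).eval T) huv
    simp only [Polynomial.map_add, Polynomial.map_mul, eval_add, eval_mul, Polynomial.map_one,
      eval_one] at h3
    have h4 : ((j.map (algebraMap E M)).map (algebraMap M (AlgebraicClosure M))).eval T = 0 := h
    have h5 : ((j'.map (algebraMap E M)).map (algebraMap M (AlgebraicClosure M))).eval T = 0 := h'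
    rw [h4, h5, mul_zero, mul_zero, add_zero] at h3
    exact zero_ne_one h3
  have hdesc : ∀ j : {j // j ∈ S}, ∃ P : M[X][X],
      P.map (mapRingHom (algebraMap M (AlgebraicClosure M))) =
        ∏ T ∈ R j.1, qq (algebraMap M (AlgebraicClosure M) a) T ∧ P.Monic := fun j =>
    exists_desc (hR j.1 j.2)
  choose P hP hPm using hdesc
  have hirr : ∀ j : {j // j ∈ S}, Irreducible (j.1.map (algebraMap E M)) := fun j =>
    irreducible_const hconst (hS1 j.1 j.2).1 (hS1 j.1 j.2).2.1
  have hPi : ∀ j, Irreducible (P j) := fun j =>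
    irr_desc ha (hirr j) ((hS1 j.1 j.2).2.1.map _) (hR j.1 j.2)
      (fun T hT => t3 T (Finset.mem_filter.1 hT).1) (hP j) (hPm j)
  have hne : ∀ j : {j // j ∈ S}, ∃ T, T ∈ R j.1 := by
    intro j
    obtain ⟨T, hT⟩ := IsAlgClosed.exists_root
      ((j.1.map (algebraMap E M)).map (algebraMap M (AlgebraicClosure M))) (by
        rw [degree_map]
        exact (degree_pos_of_irreducible (hirr j)).ne')
    exact ⟨T, (hR j.1 j.2 T).2 hT⟩
  have hPd : ∀ j, 2 ≤ (P j).natDegree := by
    intro j
    have h3 := (prod_deg (algebraMap M (AlgebraicClosure M) a) (R j.1)).2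
    rw [← hP, (hPm j).natDegree_map] at h3
    obtain ⟨T, hT⟩ := hne j
    have := Finset.card_pos.2 ⟨T, hT⟩
    omega
  let φ : Option {j // j ∈ S} → M[X][X] := fun i => i.elim (X - C X) P
  refine ⟨{j // j ∈ S}, inferInstance, φ, ?_, ?_, ?_, ?_, ?_⟩
  · rw [Fintype.card_coe, hS3]
  · rintro (_ | j)
    · exact (prime_X_sub_C _).irreducible
    · exact hPi j
  · rintro (_ | j)
    · exact monic_X_sub_C _
    · exact hPm j
  · rintro (_ | j) (_ | j') hij
    · rfl
    · have h3 : (X - C X : M[X][X]) = P j' := hij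
      have h4 := hPd j'
      rw [← h3, natDegree_X_sub_C] at h4
      omega
    · have h3 : P j = (X - C X : M[X][X]) := hij
      have h4 := hPd j
      rw [h3, natDegree_X_sub_C] at h4
      omega
    · have h3 : P j = P j' := hij
      obtain ⟨T, hT⟩ := hne j
      have h4 : qq (algebraMap M (AlgebraicClosure M) a) T ∣
          ∏ T ∈ R j'.1, qq (algebraMap M (AlgebraicClosure M) a) T := by
        rw [← hP j', ← h3, hP j]
        exact Finset.dvd_prod_of_mem _ hT
      have hpr : Prime (qq (algebraMap M (AlgebraicClosure M) a) T) :=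
        (qq_irr h2 ha' (t3 T (Finset.mem_filter.1 hT).1)).prime
      obtain ⟨T', hT', h5⟩ := (hpr.dvd_finset_prod_iff _).1 h4
      have h6 := qq_dvd h5
      subst h6
      have h7 := huniq j.1 j.2 j'.1 j'.2 T ((hR j.1 j.2 T).1 hT) ((hR j'.1 j'.2 T).1 hT')
      rw [Subtype.ext h7]
  · have hinj : Function.Injective
        (Polynomial.map (mapRingHom (algebraMap M (AlgebraicClosure M)))) := by
      apply Polynomial.map_injective
      intro p q hpq
      exact Polynomial.map_injective _ (algebraMap M (AlgebraicClosure M)).injective hpq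
    apply hinj
    rw [dd_map, fact_poly ha' t1 t2, Fintype.prod_option, Polynomial.map_mul,
      Polynomial.map_prod]
    have e1 : (φ none).map (mapRingHom (algebraMap M (AlgebraicClosure M))) = X - C X := by
      show (X - C X : M[X][X]).map _ = _
      rw [Polynomial.map_sub, Polynomial.map_X, Polynomial.map_C, coe_mapRingHom, Polynomial.map_X]
    have e2 : ∏ j : {j // j ∈ S}, (φ (some j)).map
        (mapRingHom (algebraMap M (AlgebraicClosure M))) =
        ∏ T ∈ ts (AlgebraicClosure M) m, qq (algebraMap M (AlgebraicClosure M) a) T := by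
      have e3 : ∏ j : {j // j ∈ S}, (φ (some j)).map
          (mapRingHom (algebraMap M (AlgebraicClosure M))) =
          ∏ j ∈ S, ∏ T ∈ R j, qq (algebraMap M (AlgebraicClosure M) a) T := by
        rw [← Finset.prod_coe_sort S]
        exact Finset.prod_congr rfl fun j _ => hP j
      rw [e3]
      have e4 : ∀ j, ∏ T ∈ R j, qq (algebraMap M (AlgebraicClosure M) a) T =
          ∏ T ∈ ts (AlgebraicClosure M) m,
            if ev j T then qq (algebraMap M (AlgebraicClosure M) a) T else 1 := fun j =>
        Finset.prod_filter _ _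
      rw [Finset.prod_congr rfl fun j _ => e4 j, Finset.prod_comm]
      refine Finset.prod_congr rfl fun T hT => ?_
      have h3 : (psiF (AlgebraicClosure M) m).eval T = 0 := mem_ts.1 hT
      rw [← hprodE, eval_prod, Finset.prod_eq_zero_iff] at h3
      obtain ⟨j, hj, hjT⟩ := h3
      rw [Finset.prod_eq_single_of_mem j hj, if_pos hjT]
      intro j' hj' hne'
      rw [if_neg]
      intro h4
      exact hne' (huniq j' hj' j hj T h4 hjT)
    rw [e1, e2]

end

end Pool.Agent.Y707.DP
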