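import Pool.Agent.Y707.DP.Alg
import Pool.Agent.Y707.DP.Fac

/-! **The class group of the square of the curve `y ^ 2 = D_n(x, a) + w` over `M(w)`.** -/

set_option autoImplicit false
set_option maxHeartbeats 1600000

namespace Pool.Agent.Y707.DP

open Polynomial Pool.Agent.TH943.HJ Pool.Agent.Y707.PC Pool.Agent.Y707.SF Pool.Agent.Y707.DK
open scoped nonZeroDivisors

theorem dt_mapC {B : Type} [CommRing B] (p : B[X]) : dt (p.map C : B[X][X]) = 0 := by
  unfold dt
  rw [Bivariate.swap_map_C, derivative_C, map_zero]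

/-- The polynomial `f` with coefficients in `L`, over the ring `L[x, y] / (y ^ 2 - f(x))`. -/
noncomputable def overRing {L : Type} [Field L] (f : L[X]) :
    (AdjoinRoot (X ^ 2 - C f : L[X][X]))[X] :=
  f.map ((AdjoinRoot.of (X ^ 2 - C f : L[X][X])).comp C)

section
variable {M : Type} [Field M]

theorem dd_deg (a : M) (m : ℕ) : (dd a (2 * m + 1)).Monic ∧
    (dd a (2 * m + 1)).natDegree = 2 * m + 1 := by
  obtain ⟨h1, h2⟩ := dickson_deg a (2 * m)
  have h3 : ((dickson 1 a (2 * m + 1)).map C : M[X][X]).natDegree = 2 * m + 1 := by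
    rw [h1.natDegree_map, h2]
  have h4 : (C (dickson 1 a (2 * m + 1)) : M[X][X]).natDegree <
      ((dickson 1 a (2 * m + 1)).map C : M[X][X]).natDegree := by
    rw [h3, natDegree_C]
    omega
  unfold dd
  exact ⟨(h1.map _).sub_of_left (degree_lt_degree h4),
    by rw [natDegree_sub_eq_left_of_natDegree_lt h4, h3]⟩

theorem fw_monic {B : Type} [Field B] [Algebra M B] {w : B} {D : M[X]} (hD : D.Monic)
    (hd : 0 < D.natDegree) : (fw w D).Monic := by
  unfold fw
  have h1 : (up D : B[X]).Monic := hD.map _
  refine h1.add_of_left (degree_lt_degree ?_)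
  rw [natDegree_C]
  have h2 : (up D : B[X]).natDegree = D.natDegree := hD.natDegree_map _
  rwa [h2]

end

section
variable {M B : Type} [Field M] [Field B] [Algebra M B] {w : B} {D : M[X]}

theorem fw_map {R : Type} [CommRing R] (θ : B →+* R) :
    (fw w D).map θ = D.map (θ.comp (algebraMap M B)) + C (θ w) := by
  unfold fw
  rw [Polynomial.map_add, Polynomial.map_C, up_def, Polynomial.map_map]

theorem fw_der : derivative (fw w D) = (derivative D).map (algebraMap M B) := by
  unfold fw
  rw [derivative_add, derivative_C, add_zero, up_def, derivative_map]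

end

section
variable {E M : Type} [Field E] [Field M] [CharZero E] [CharZero M] [Algebra E M]

/-- **The class group.** -/
theorem alg_product (hconst : ∀ x : M, IsAlgebraic E x → ∃ e : E, algebraMap E M e = x) {a : M}
    (ha : a ≠ 0) (m : ℕ) :
    ∃ _ : IsDomain (CR (fw (RatFunc.X : RatFunc M) (dickson 1 a (2 * m + 1)))),
      Subsingleton (Additive (ClassGroup
        (CR (fw (RatFunc.X : RatFunc M) (dickson 1 a (2 * m + 1)))))) ∧
      ∃ _ : IsDomain (SR (overRing (fw (RatFunc.X : RatFunc M) (dickson 1 a (2 * m + 1))))),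
        Module.Free ℤ (Additive (ClassGroup
          (SR (overRing (fw (RatFunc.X : RatFunc M) (dickson 1 a (2 * m + 1))))))) ∧
        Module.Finite ℤ (Additive (ClassGroup
          (SR (overRing (fw (RatFunc.X : RatFunc M) (dickson 1 a (2 * m + 1))))))) ∧
        Module.finrank ℤ (Additive (ClassGroup
          (SR (overRing (fw (RatFunc.X : RatFunc M) (dickson 1 a (2 * m + 1))))))) =
          numFactors (psiF E m) := by
  classical
  obtain ⟨κ, hκ, φ, hcard, hirr, hmon, hinj, hprod⟩ := factors hconst ha m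
  obtain ⟨D, hDdef⟩ : ∃ D, D = dickson 1 a (2 * m + 1) := ⟨_, rfl⟩
  have hDs := dickson_deg a (2 * m)
  rw [← hDdef] at hDs ⊢
  have hD : Odd D.natDegree := by
    rw [hDs.2]
    exact ⟨m, rfl⟩
  let B := RatFunc M
  let w : B := RatFunc.X
  show ∃ _ : IsDomain (CR (fw w D)), Subsingleton (Additive (ClassGroup (CR (fw w D)))) ∧
      ∃ _ : IsDomain (SR (overRing (fw w D))),
        Module.Free ℤ (Additive (ClassGroup (SR (overRing (fw w D))))) ∧
        Module.Finite ℤ (Additive (ClassGroup (SR (overRing (fw w D))))) ∧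
        Module.finrank ℤ (Additive (ClassGroup (SR (overRing (fw w D))))) = _
  obtain ⟨hdom, hsub, hpid⟩ := base_pid (w := w) (D := D) transc_X ratfunc_hL hD
  refine ⟨hdom, hsub, ?_⟩
  have hufd : UniqueFactorizationMonoid (CR (fw w D)) := inferInstance
  let M' := FractionRing M[X]
  let L' := FractionRing B[X]
  let N := FractionRing (CR (fw w D))
  have hj0 : Function.Injective (mapRingHom (algebraMap M B)) := by
    intro p q hpq
    exact Polynomial.map_injective _ (algebraMap M B).injective hpq
  letI i1 : Algebra M' L' := (IsFractionRing.map (K := M') (L := L') hj0).toAlgebra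
  have hcomp : ∀ p : M[X], algebraMap M' L' (algebraMap M[X] M' p) =
      algebraMap B[X] L' (p.map (algebraMap M B)) := fun p => by
    show IsFractionRing.map (K := M') (L := L') hj0 (algebraMap M[X] M' p) = _
    unfold IsFractionRing.map
    rw [IsLocalization.map_eq]
    rfl
  have hj1 : Function.Injective ((algebraMap (CR (fw w D)) N).comp (pp (F := fw w D))) :=
    (IsFractionRing.injective (CR (fw w D)) N).comp pp_inj
  letI i2 : Algebra L' N := (IsFractionRing.lift (K := L') hj1).toAlgebra
  have hN : ∀ p : B[X], algebraMap L' N (algebraMap B[X] L' p) =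
      algebraMap (CR (fw w D)) N (pp p) := fun p =>
    IsFractionRing.lift_algebraMap hj1 p
  letI i3 : Algebra M' N := ((algebraMap L' N).comp (algebraMap M' L')).toAlgebra
  have i4 : IsScalarTower M' L' N := IsScalarTower.of_algebraMap_eq fun _ => rfl
  have hω := transc_y (N := N) hcomp hN transc_X
  have hL := gen_y (N := N) hcomp hN ratfunc_hL
  have hsq0 := om_sq (N := N) hcomp hN
  -- the map from polynomials to the ring
  let τ : M[X] →+* CR (fw w D) := (pp (F := fw w D)).comp (mapRingHom (algebraMap M B))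
  have hτ : ∀ p : M[X], algebraMap M' N (algebraMap M[X] M' p) =
      algebraMap (CR (fw w D)) N (τ p) := fun p => by
    show algebraMap L' N (algebraMap M' L' (algebraMap M[X] M' p)) = _
    rw [hcomp, hN]
    rfl
  have hτ2 : ∀ P : M[X][X], (up (P.map (algebraMap M[X] M')) : N[X]) =
      (P.map τ).map (algebraMap (CR (fw w D)) N) := fun P => by
    rw [up_def, Polynomial.map_map, Polynomial.map_map]
    congr 1
    exact RingHom.ext hτ
  have hyD : yy (fw w D) ^ 2 = τ D + pp (C w) := by
    rw [yy_sq]
    unfold fw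
    rw [map_add]
    rfl
  have hfS : overRing (fw w D) = (dd a (2 * m + 1)).map τ + C (yy (fw w D) ^ 2) := by
    have e1 : τ.comp C = ((AdjoinRoot.of (X ^ 2 - C (fw w D) : B[X][X])).comp C).comp
        (algebraMap M B) := RingHom.ext fun z => by
      show pp ((C z : M[X]).map (algebraMap M B)) = _
      rw [Polynomial.map_C]
      rfl
    have e2 := fw_map (w := w) (D := D)
      ((AdjoinRoot.of (X ^ 2 - C (fw w D) : B[X][X])).comp C)
    have e3 : overRing (fw w D) = (fw w D).map
      ((AdjoinRoot.of (X ^ 2 - C (fw w D) : B[X][X])).comp C) := rfl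
    rw [e3, e2, hyD, ← e1]
    unfold dd
    rw [← hDdef, Polynomial.map_sub, Polynomial.map_C, Polynomial.map_map, C_add]
    have e4 : ((AdjoinRoot.of (X ^ 2 - C (fw w D) : B[X][X])).comp C) w = pp (C w) := rfl
    rw [e4]
    ring
  have hfm : (fw w D).Monic := fw_monic hDs.1 (by rw [hDs.2]; omega)
  have hSm : (overRing (fw w D)).Monic := hfm.map _
  have hSd : Odd (overRing (fw w D)).natDegree := by
    have e : (overRing (fw w D)).natDegree = (fw w D).natDegree := hfm.natDegree_map _
    rw [e]
    exact (fw_deg hD).1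
  -- the factors
  let φ' : Option κ → M'[X] := fun i => (φ i).map (algebraMap M[X] M')
  have hprod' : ∏ i, φ' i = (dd a (2 * m + 1)).map (algebraMap M[X] M') := by
    rw [← hprod, Polynomial.map_prod]
  have hφi : ∀ i, Irreducible (φ' i) := fun i =>
    ((hmon i).irreducible_iff_irreducible_map_fraction_map).1 (hirr i)
  have hφm : ∀ i, (φ' i).Monic := fun i => (hmon i).map _
  have hφinj : Function.Injective φ' := fun i j hij =>
    hinj (Polynomial.map_injective _ (IsFractionRing.injective M[X] M') hij)
  have hodd : Odd (∏ i, φ' i).natDegree := by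
    rw [hprod', (dd_deg a m).1.natDegree_map, (dd_deg a m).2]
    exact ⟨m, rfl⟩
  have hM'0 : CharZero M' := charZero_of_injective_algebraMap (IsFractionRing.injective M[X] M')
  have hN0 : CharZero N := charZero_of_injective_algebraMap (algebraMap M' N).injective
  have hgg : gg (algebraMap (CR (fw w D)) N (yy (fw w D))) (∏ i, φ' i) 0 =
      (overRing (fw w D)).map (algebraMap (CR (fw w D)) N) := by
    have h3 : (up (0 : M'[X]) : N[X]) = 0 := Polynomial.map_zero _
    unfold gg cc
    rw [h3, add_zero, hprod', hτ2, hfS, Polynomial.map_add, Polynomial.map_C, map_pow, C_pow]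
  have hb : 2 * (0 : M'[X]).natDegree < (∏ i, φ' i).natDegree := by
    rw [natDegree_zero, mul_zero]
    exact hodd.pos
  have hsep := sep_gg (L := N) hω hodd hb
  have hmain := alg_self (S := CR (fw w D)) (N := N) (M' := M') (φ := φ') (y := yy (fw w D))
    (f := overRing (fw w D)) (ψ := fun i => (φ i).map τ) two_ne_zero hω hL hφi hφm hφinj hodd
    hsep.squarefree hgg hSm hSd (fun i => (hτ2 (φ i)).symm) ?_
  · obtain ⟨k0, k1, k2, k3⟩ := hmain
    refine ⟨k0, k1, k2, k3.trans ?_⟩
    rw [Fintype.card_option, Nat.add_sub_cancel, hcard]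
  -- the ideals are invertible
  intro i
  let H : M[X][X] := ∏ j ∈ Finset.univ.erase i, φ j
  have hFH : φ i * H = dd a (2 * m + 1) := by
    rw [← hprod]
    exact Finset.mul_prod_erase _ _ (Finset.mem_univ i)
  have hdt : dt (φ i) * H + φ i * dt H = -C (derivative D) := by
    rw [← dt_mul, hFH]
    unfold dd
    rw [dt_sub, dt_mapC, dt_C, ← hDdef]
    ring
  obtain ⟨u, v, huv⟩ := fw_sep (w := w) (D := D) transc_X hD
  have hder : pp (derivative (fw w D)) = τ (derivative D) :=
    congrArg (fun p => pp (F := fw w D) p) (fw_der (w := w) (D := D))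
  have h1 : (pp u : CR (fw w D)) * yy (fw w D) ^ 2 + pp v * τ (derivative D) = 1 := by
    rw [yy_sq, ← hder, ← map_mul, ← map_mul, ← map_add, huv, map_one]
  have h2B : (2 : B) ≠ 0 := two_ne M B
  obtain ⟨c, hc⟩ : ∃ c : CR (fw w D), c * 2 = 1 := by
    refine ⟨pp (C (2⁻¹ : B)), ?_⟩
    have e : (2 : CR (fw w D)) = pp (C (2 : B)) := by rw [map_ofNat, map_ofNat]
    rw [e, ← map_mul, ← C_mul, inv_mul_cancel₀ h2B, C_1, map_one]
  refine ⟨Ideal.span {pq (H.map τ), yq (overRing (fw w D)) - pq (C (yy (fw w D)))}, ?_⟩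
  refine span_pq (t := yq (overRing (fw w D)) + pq (C (yy (fw w D))))
    (α := -pq (C (pp u * yy (fw w D) * c))) (β := pq (C (pp u * yy (fw w D) * c)))
    (γ := -(pq (C (pp v)) * pq ((dt H).map τ))) (δ := -(pq (C (pp v)) * pq ((dt (φ i)).map τ)))
    ?_ ?_
  · have e1 : (yq (overRing (fw w D)) - pq (C (yy (fw w D)))) *
        (yq (overRing (fw w D)) + pq (C (yy (fw w D)))) =
        pq (overRing (fw w D)) - pq (C (yy (fw w D) ^ 2)) := by
      rw [← yq_sq, C_pow, map_pow]
      ring
    have e2 : (overRing (fw w D)) - C (yy (fw w D) ^ 2) = (φ i).map τ * H.map τ := by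
      rw [hfS, ← Polynomial.map_mul, hFH]
      ring
    rw [e1, ← map_sub, e2, map_mul]
  · have e3 : (pq ((dt (φ i)).map τ) : SR (overRing (fw w D))) * pq (H.map τ) +
        pq ((φ i).map τ) * pq ((dt H).map τ) = -pq (C (τ (derivative D))) := by
      rw [← map_mul, ← map_mul, ← map_add, ← Polynomial.map_mul, ← Polynomial.map_mul,
        ← Polynomial.map_add, hdt, Polynomial.map_neg, Polynomial.map_C, map_neg]
    have e4 : (pq (C (pp u)) : SR (overRing (fw w D))) * pq (C (yy (fw w D))) ^ 2 +
        pq (C (pp v)) * pq (C (τ (derivative D))) = 1 := by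
      rw [← map_pow, ← map_mul, ← map_mul, ← map_add, ← C_pow, ← C_mul, ← C_mul, ← C_add, h1,
        C_1, map_one]
    have e5 : (pq (C c) : SR (overRing (fw w D))) * 2 = 1 := by
      have e : (2 : SR (overRing (fw w D))) = pq (C (2 : CR (fw w D))) := by
        rw [map_ofNat, map_ofNat]
      rw [e, ← map_mul, ← C_mul, hc, C_1, map_one]
    simp only [C_mul, map_mul]
    linear_combination (-pq (C (pp v))) * e3 + e4 +
      (pq (C (pp u)) * pq (C (yy (fw w D))) * pq (C (yy (fw w D)))) * e5

end

end Pool.Agent.Y707.DP
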