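import Pool.Agent.Y707.DP.Cnt

/-! The number of the solutions of `D_n(x, a) = D_n(z, a)` over a finite field: the count. -/

set_option autoImplicit false
set_option maxHeartbeats 400000

namespace Pool.Agent.Y707.DP

open Polynomial Finset

section
variable {F : Type} [Field F]

/-- the quadratic factor at a point -/
def qv (a x z T : F) : F := z ^ 2 - T * x * z + (x ^ 2 + (T ^ 2 - 4) * a)

/-- the factorization as polynomials in `z`, at a point `x` -/
theorem fact_line [IsAlgClosed F] {m : ℕ} {a : F} (ha : a ≠ 0)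
    (hs : psiF F m = ∏ T ∈ ts F m, (X - C T)) (hc : (ts F m).card = m) (x : F) :
    dickson 1 a (2 * m + 1) - C ((dickson 1 a (2 * m + 1)).eval x) =
      (X - C x) * ∏ T ∈ ts F m, (X ^ 2 - C (T * x) * X + C (x ^ 2 + (T ^ 2 - 4) * a)) := by
  apply Polynomial.funext
  intro z
  rw [eval_sub, eval_C, fact_point ha hs hc, eval_mul, eval_sub, eval_X, eval_C, eval_prod]
  congr 1
  refine Finset.prod_congr rfl fun T _ => ?_
  simp only [eval_add, eval_sub, eval_mul, eval_pow, eval_X, eval_C]

theorem der_zero {P A B : F[X]} {c z : F} (h : P - C c = A * B) (hA : A.eval z = 0)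
    (hB : B.eval z = 0) : (derivative P).eval z = 0 := by
  have h1 := congrArg derivative h
  rw [derivative_sub, derivative_C, sub_zero, derivative_mul] at h1
  rw [h1, eval_add, eval_mul, eval_mul, hA, hB, mul_zero, zero_mul, add_zero]

variable [IsAlgClosed F] {m : ℕ} {a : F} (ha : a ≠ 0)
  (hs : psiF F m = ∏ T ∈ ts F m, (X - C T)) (hc : (ts F m).card = m)

include ha hs hc

theorem bad1 {x T : F} (hT : T ∈ ts F m) (h : qv a x x T = 0) :
    (derivative (dickson 1 a (2 * m + 1))).eval x = 0 := by
  refine der_zero (fact_line ha hs hc x) ?_ ?_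
  · rw [eval_sub, eval_X, eval_C, sub_self]
  · rw [eval_prod]
    refine Finset.prod_eq_zero hT ?_
    simp only [eval_add, eval_sub, eval_mul, eval_pow, eval_X, eval_C]
    exact h

theorem bad2 {x z T T' : F} (hT : T ∈ ts F m) (hT' : T' ∈ ts F m) (hne : T ≠ T')
    (h : qv a x z T = 0) (h' : qv a x z T' = 0) :
    (derivative (dickson 1 a (2 * m + 1))).eval z = 0 := by
  classical
  have h1 := fact_line ha hs hc x
  rw [← Finset.mul_prod_erase _ _ hT, ← mul_assoc, mul_comm (X - C x), mul_assoc] at h1
  refine der_zero h1 ?_ ?_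
  · simp only [eval_add, eval_sub, eval_mul, eval_pow, eval_X, eval_C]
    exact h
  · rw [eval_mul, eval_prod, Finset.prod_eq_zero (Finset.mem_erase.2 ⟨hne.symm, hT'⟩), mul_zero]
    simp only [eval_add, eval_sub, eval_mul, eval_pow, eval_X, eval_C]
    exact h'

end

section
variable {κ : Type} [Field κ] [Fintype κ]

theorem card_roots_le {p : κ[X]} (hp : p ≠ 0) [DecidablePred fun t : κ => p.eval t = 0] :
    (univ.filter fun t : κ => p.eval t = 0).card ≤ p.natDegree := by
  classical
  have h1 : (univ.filter fun t : κ => p.eval t = 0) ⊆ p.roots.toFinset := by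
    intro t ht
    rw [Multiset.mem_toFinset, mem_roots hp]
    exact (mem_filter.1 ht).2
  exact (card_le_card h1).trans ((Multiset.toFinset_card_le _).trans (card_roots' p))

open Classical in
/-- the exceptional points -/
noncomputable def bad (m : ℕ) (a : κ) : Finset (κ × κ) := univ.filter fun p : κ × κ =>
  (derivative (dickson 1 a (2 * m + 1))).eval p.2 = 0 ∧
    (dickson 1 a (2 * m + 1)).eval p.1 = (dickson 1 a (2 * m + 1)).eval p.2

theorem der_ne {m : ℕ} (hn : ((2 * m + 1 : ℕ) : κ) ≠ 0) (a : κ) :
    derivative (dickson 1 a (2 * m + 1)) ≠ 0 := by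
  intro h0
  have h1 := dickson_deg a (2 * m)
  have h2 := congrArg (fun p => p.coeff (2 * m)) h0
  simp only [coeff_derivative, coeff_zero] at h2
  have h3 : (dickson 1 a (2 * m + 1)).coeff (2 * m + 1) = 1 := by
    have := h1.1.coeff_natDegree
    rwa [h1.2] at this
  rw [h3, one_mul] at h2
  apply hn
  push_cast
  exact_mod_cast h2

theorem bad_card {m : ℕ} (hn : ((2 * m + 1 : ℕ) : κ) ≠ 0) (a : κ) :
    (bad m a).card ≤ 2 * m * (2 * m + 1) := by
  classical
  have h1 := dickson_deg a (2 * m)
  have h2 : bad m a ⊆ (univ.filter fun z : κ =>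
      (derivative (dickson 1 a (2 * m + 1))).eval z = 0).biUnion fun z =>
      (univ.filter fun x : κ => (dickson 1 a (2 * m + 1) -
        C ((dickson 1 a (2 * m + 1)).eval z)).eval x = 0).image fun x => (x, z) := by
    rintro ⟨x, z⟩ hp
    unfold bad at hp
    rw [mem_filter] at hp
    rw [mem_biUnion]
    refine ⟨z, mem_filter.2 ⟨mem_univ _, hp.2.1⟩, ?_⟩
    rw [mem_image]
    refine ⟨x, mem_filter.2 ⟨mem_univ _, ?_⟩, rfl⟩
    rw [eval_sub, eval_C, hp.2.2, sub_self]
  refine (card_le_card h2).trans ?_
  refine (card_biUnion_le_card_mul _ _ (2 * m + 1) fun z _ => ?_).trans ?_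
  · refine card_image_le.trans ?_
    have h4 : (dickson 1 a (2 * m + 1) - C ((dickson 1 a (2 * m + 1)).eval z)).natDegree =
        2 * m + 1 := by
      rw [natDegree_sub_C, h1.2]
    refine (card_roots_le ?_).trans h4.le
    intro h0
    rw [h0, natDegree_zero] at h4
    omega
  · refine Nat.mul_le_mul_right _ ?_
    refine (card_roots_le (der_ne hn a)).trans ?_
    refine (natDegree_derivative_le _).trans ?_
    rw [h1.2]
    omega

end

end Pool.Agent.Y707.DP
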