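import Pool.Agent.Y707.DP.Cn2

/-! The number of the solutions of `D_n(x, a) = D_n(z, a)` over a finite field: the theorem. -/

set_option autoImplicit false
set_option maxHeartbeats 400000

namespace Pool.Agent.Y707.DP

open Polynomial Finset
open Pool.Agent.Y707.PC Pool.Agent.Y707.SF Pool.Agent.Y707.DK

section
variable {κ : Type} [Field κ] [Fintype κ] {m : ℕ} {a : κ}

theorem eval_iota (n : ℕ) (x : κ) :
    (dickson 1 (algebraMap κ (AlgebraicClosure κ) a) n).eval
      (algebraMap κ (AlgebraicClosure κ) x) =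
      algebraMap κ (AlgebraicClosure κ) ((dickson 1 a n).eval x) := by
  rw [← map_dickson (algebraMap κ (AlgebraicClosure κ)), eval_map_apply]

theorem der_iota (n : ℕ) (x : κ) :
    (derivative (dickson 1 (algebraMap κ (AlgebraicClosure κ) a) n)).eval
      (algebraMap κ (AlgebraicClosure κ) x) =
      algebraMap κ (AlgebraicClosure κ) ((derivative (dickson 1 a n)).eval x) := by
  rw [← map_dickson (algebraMap κ (AlgebraicClosure κ)), derivative_map, eval_map_apply]

theorem closed_two (h2 : ringChar κ ≠ 2) : (2 : AlgebraicClosure κ) ≠ 0 := by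
  have h20 : (2 : κ) ≠ 0 := Ring.two_ne_zero h2
  have : (2 : AlgebraicClosure κ) = algebraMap κ _ 2 := by rw [map_ofNat]
  rw [this, Ne, map_eq_zero]
  exact h20

theorem closed_n (hn : ((2 * m + 1 : ℕ) : κ) ≠ 0) :
    ((2 * m + 1 : ℕ) : AlgebraicClosure κ) ≠ 0 := by
  have : ((2 * m + 1 : ℕ) : AlgebraicClosure κ) =
      algebraMap κ _ ((2 * m + 1 : ℕ) : κ) := by rw [map_natCast]
  rw [this, Ne, map_eq_zero]
  exact hn

/-- the conic of the point `p` and the root `T` -/
def on (a : κ) (p : κ × κ) (T : AlgebraicClosure κ) : Prop :=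
  qv (algebraMap κ (AlgebraicClosure κ) a) (algebraMap κ (AlgebraicClosure κ) p.1)
    (algebraMap κ (AlgebraicClosure κ) p.2) T = 0

variable (h2 : ringChar κ ≠ 2) (hn : ((2 * m + 1 : ℕ) : κ) ≠ 0) (ha : a ≠ 0)

include h2 hn ha

theorem mem_iff (p : κ × κ) :
    (dickson 1 a (2 * m + 1)).eval p.1 = (dickson 1 a (2 * m + 1)).eval p.2 ↔
      p.1 = p.2 ∨ ∃ T ∈ ts (AlgebraicClosure κ) m, on a p T := by
  obtain ⟨t1, t2, t3⟩ := ts_closed (F := AlgebraicClosure κ) (m := m) (closed_two h2)
    (closed_n hn)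
  have ha' : algebraMap κ (AlgebraicClosure κ) a ≠ 0 := by
    rw [Ne, map_eq_zero]
    exact ha
  have h1 := fact_point ha' t1 t2 (algebraMap κ (AlgebraicClosure κ) p.1)
    (algebraMap κ (AlgebraicClosure κ) p.2)
  rw [eval_iota, eval_iota, ← map_sub, ← map_sub] at h1
  constructor
  · intro h
    rw [h, sub_self, map_zero] at h1
    rcases mul_eq_zero.1 h1.symm with h3 | h3
    · left
      rw [map_eq_zero, sub_eq_zero] at h3
      exact h3.symm
    · right
      rw [Finset.prod_eq_zero_iff] at h3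
      exact h3
  · rintro (h | ⟨T, hT, hon⟩)
    · rw [h]
    · have h3 : algebraMap κ (AlgebraicClosure κ) ((dickson 1 a (2 * m + 1)).eval p.2 -
          (dickson 1 a (2 * m + 1)).eval p.1) = 0 := by
        rw [h1]
        exact mul_eq_zero_of_right _ (Finset.prod_eq_zero hT hon)
      rw [map_eq_zero, sub_eq_zero] at h3
      exact h3.symm

theorem mem_bad1 {p : κ × κ} (h : p.1 = p.2) {T : AlgebraicClosure κ}
    (hT : T ∈ ts (AlgebraicClosure κ) m) (hon : on a p T) : p ∈ bad m a := by
  classical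
  obtain ⟨t1, t2, t3⟩ := ts_closed (F := AlgebraicClosure κ) (m := m) (closed_two h2)
    (closed_n hn)
  have ha' : algebraMap κ (AlgebraicClosure κ) a ≠ 0 := by
    rw [Ne, map_eq_zero]
    exact ha
  unfold bad
  rw [mem_filter]
  refine ⟨mem_univ _, ?_, by rw [h]⟩
  unfold on at hon
  rw [h] at hon
  have h3 := bad1 ha' t1 t2 hT hon
  rw [der_iota, map_eq_zero] at h3
  exact h3

theorem mem_bad2 {p : κ × κ} {T T' : AlgebraicClosure κ} (hT : T ∈ ts (AlgebraicClosure κ) m)
    (hT' : T' ∈ ts (AlgebraicClosure κ) m) (hne : T ≠ T') (hon : on a p T)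
    (hon' : on a p T') : p ∈ bad m a := by
  classical
  obtain ⟨t1, t2, t3⟩ := ts_closed (F := AlgebraicClosure κ) (m := m) (closed_two h2)
    (closed_n hn)
  have ha' : algebraMap κ (AlgebraicClosure κ) a ≠ 0 := by
    rw [Ne, map_eq_zero]
    exact ha
  unfold bad
  rw [mem_filter]
  refine ⟨mem_univ _, ?_, (mem_iff h2 hn ha p).2 (Or.inr ⟨T, hT, hon⟩)⟩
  have h3 := bad2 ha' t1 t2 hT hT' hne hon hon'
  rw [der_iota, map_eq_zero] at h3
  exact h3

open Classical in
theorem conic_in {T : AlgebraicClosure κ} (t : κ)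
    (hT : algebraMap κ (AlgebraicClosure κ) t = T) :
    |((univ.filter fun p : κ × κ => on a p T).card : ℝ) - Fintype.card κ| ≤ 1 := by
  have h3 : (univ.filter fun p : κ × κ => on a p T) = univ.filter fun p : κ × κ =>
      p.2 ^ 2 - t * p.1 * p.2 + (p.1 ^ 2 + (t ^ 2 - 4) * a) = 0 := by
    ext p
    rw [mem_filter, mem_filter]
    refine and_congr_right fun _ => ?_
    unfold on qv
    rw [← hT, ← map_eq_zero (algebraMap κ (AlgebraicClosure κ))]
    simp only [map_add, map_sub, map_mul, map_pow, map_ofNat]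
  rw [h3]
  exact conic h2 ha

open Classical in
theorem conic_out {T : AlgebraicClosure κ} (hT : T ∈ ts (AlgebraicClosure κ) m)
    (hr : T ∉ Set.range (algebraMap κ (AlgebraicClosure κ))) :
    (univ.filter fun p : κ × κ => on a p T) ⊆ bad m a := by
  intro p hp
  have hon : on a p T := (mem_filter.1 hp).2
  rw [InfiniteGalois.mem_range_algebraMap_iff_fixed, not_forall] at hr
  obtain ⟨σ, hσ⟩ := hr
  have h3 : σ T ∈ ts (AlgebraicClosure κ) m := by
    rw [mem_ts] at hT ⊢
    have h4 := congrArg σ hT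
    rw [map_zero] at h4
    rw [← h4, ← psiF_map (algebraMap κ (AlgebraicClosure κ)), eval_map_algebraMap,
      eval_map_algebraMap]
    exact aeval_algHom_apply (σ : AlgebraicClosure κ →ₐ[κ] AlgebraicClosure κ) T _
  have h4 : on a p (σ T) := by
    have h5 := congrArg σ hon
    unfold qv at h5
    simp only [map_add, map_sub, map_mul, map_pow, map_ofNat, map_zero, AlgEquiv.commutes] at h5
    exact h5
  exact mem_bad2 h2 hn ha hT h3 (fun h => hσ h.symm) hon h4

end

end Pool.Agent.Y707.DP
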