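import Pool.Agent.Y707.DP.Fac
import Pool.Agent.Y707.DK.Avg

/-! The number of the solutions of `D_n(x, a) = D_n(z, a)` over a finite field. -/

set_option autoImplicit false
set_option maxHeartbeats 400000

namespace Pool.Agent.Y707.DP

open Polynomial Finset
open Pool.Agent.Y707.PC Pool.Agent.Y707.SF Pool.Agent.Y707.DK

section
variable {κ : Type} [Field κ] [Fintype κ]

open Classical in
theorem sum_ch_two (h2 : ringChar κ ≠ 2) (u v : κ) :
    ∑ w : κ, ch (u + w) * ch (v + w) = (if u = v then (Fintype.card κ : ℝ) else 0) - 1 := by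
  have h20 : (2 : κ) ≠ 0 := Ring.two_ne_zero h2
  have h1 := sum_ch_sq_add h2 (-((u - v) / 2) ^ 2)
  have h3 : (-((u - v) / 2) ^ 2 = 0) ↔ u = v := by
    rw [neg_eq_zero, pow_eq_zero_iff two_ne_zero, div_eq_zero_iff, sub_eq_zero]
    exact or_iff_left h20
  rw [if_congr h3 rfl rfl] at h1
  rw [← h1]
  refine Fintype.sum_equiv (Equiv.addRight ((u + v) / 2)) _ _ fun w => ?_
  rw [← ch_mul]
  congr 1
  show (u + w) * (v + w) = -((u - v) / 2) ^ 2 + (w + (u + v) / 2) ^ 2
  field_simp
  ring

open Classical in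
/-- the second moment -/
theorem second_moment (h2 : ringChar κ ≠ 2) (f : κ[X]) :
    ∑ w : κ, traceOne (f + C w) ^ 2 = Fintype.card κ *
      ((univ.filter fun p : κ × κ => f.eval p.1 = f.eval p.2).card : ℝ) -
        (Fintype.card κ : ℝ) ^ 2 := by
  have h1 : ∀ w : κ, traceOne (f + C w) ^ 2 =
      ∑ p : κ × κ, ch (f.eval p.1 + w) * ch (f.eval p.2 + w) := by
    intro w
    rw [traceOne_eq h2, neg_sq, sq, sum_mul_sum, ← Fintype.sum_prod_type']
    refine sum_congr rfl fun p _ => ?_
    rw [eval_add, eval_add, eval_C, eval_C]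
  rw [sum_congr rfl fun w _ => h1 w, sum_comm,
    sum_congr rfl fun p _ => sum_ch_two h2 (f.eval p.1) (f.eval p.2), sum_sub_distrib,
    ← sum_filter, sum_const, sum_const, card_univ, Fintype.card_prod, nsmul_eq_mul, nsmul_eq_mul]
  push_cast
  ring

open Classical in
/-- the number of the points of a conic -/
theorem conic (h2 : ringChar κ ≠ 2) {a t : κ} (ha : a ≠ 0) :
    |((univ.filter fun p : κ × κ =>
      p.2 ^ 2 - t * p.1 * p.2 + (p.1 ^ 2 + (t ^ 2 - 4) * a) = 0).card : ℝ) -
        Fintype.card κ| ≤ 1 := by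
  have h20 : (2 : κ) ≠ 0 := Ring.two_ne_zero h2
  have h3 : ∀ b : κ, (∑ y : κ, if y ^ 2 = b then (1 : ℝ) else 0) = 1 + ch b := by
    intro b
    have h3 := quadraticChar_card_sqrts h2 b
    rw [sum_boole]
    unfold ch
    have h4 : {x : κ | x ^ 2 = b}.toFinset = univ.filter fun x => x ^ 2 = b := by
      ext x
      simp
    rw [h4] at h3
    have h5 : (((univ.filter fun x : κ => x ^ 2 = b).card : ℤ) : ℝ) =
        (quadraticChar κ b + 1 : ℤ) := by
      rw [h3]
    push_cast at h5
    linarith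
  have h4 : ((univ.filter fun p : κ × κ =>
      p.2 ^ 2 - t * p.1 * p.2 + (p.1 ^ 2 + (t ^ 2 - 4) * a) = 0).card : ℝ) =
      ∑ x : κ, (1 + ch ((t ^ 2 - 4) * (-4 * a + x ^ 2))) := by
    rw [← sum_boole, Fintype.sum_prod_type]
    refine sum_congr rfl fun x _ => ?_
    rw [← h3]
    let e : κ ≃ κ :=
      { toFun := fun z => 2 * z - t * x
        invFun := fun s => (s + t * x) / 2
        left_inv := fun z => by
          show (2 * z - t * x + t * x) / 2 = z
          field_simp
          ring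
        right_inv := fun s => by
          show 2 * ((s + t * x) / 2) - t * x = s
          field_simp
          ring }
    refine Fintype.sum_equiv e _ _ fun z => ?_
    refine if_congr ?_ rfl rfl
    show z ^ 2 - t * x * z + (x ^ 2 + (t ^ 2 - 4) * a) = 0 ↔
      (2 * z - t * x) ^ 2 = (t ^ 2 - 4) * (-4 * a + x ^ 2)
    have h40 : (4 : κ) ≠ 0 := by
      have : (4 : κ) = 2 * 2 := by norm_num
      rw [this]
      exact mul_ne_zero h20 h20
    constructor
    · intro h
      linear_combination 4 * h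
    · intro h
      have h5 : 4 * (z ^ 2 - t * x * z + (x ^ 2 + (t ^ 2 - 4) * a)) = 0 := by
        linear_combination h
      exact (mul_eq_zero.1 h5).resolve_left h40
  have h5 : (-4 * a : κ) ≠ 0 := by
    have : (-4 * a : κ) = -(2 * (2 * a)) := by ring
    rw [this]
    exact neg_ne_zero.2 (mul_ne_zero h20 (mul_ne_zero h20 ha))
  have h6 := sum_ch_sq_add h2 (-4 * a)
  rw [if_neg h5] at h6
  rw [h4, sum_add_distrib, sum_const, card_univ, nsmul_eq_mul, mul_one, add_sub_cancel_left]
  have h7 : ∑ x : κ, ch ((t ^ 2 - 4) * (-4 * a + x ^ 2)) = ch (t ^ 2 - 4) * (0 - 1) := by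
    rw [← h6, mul_sum]
    exact sum_congr rfl fun x _ => ch_mul _ _
  rw [h7]
  have h8 : |ch (t ^ 2 - 4)| ≤ 1 := ch_abs _
  rw [_root_.abs_mul]
  norm_num
  exact h8

end

end Pool.Agent.Y707.DP
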