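import Pool.Agent.Y707.DP.Cls
import Pool.Agent.Y707.DK.Defs

/-!
# The squares of the curves `Y ^ 2 = D_n(X, a) + w`

`D_n(X, a)` is the Dickson polynomial: `D_n(u + a / u, a) = u ^ n + (a / u) ^ n`, and `n = 2 m + 1` is
odd.  The coefficient `a` is a function on the variety with the equations `y_i ^ 2 = G_i(x)`, a
polynomial in `x_1, …, x_k`.  The curve `C` has genus `m`, and its Jacobian has real multiplication by
the `n`-th roots of unity: the endomorphisms are defined over the real subfield of the cyclotomic field.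
-/

set_option autoImplicit false
set_option maxHeartbeats 400000

namespace Pool.Agent.Y707.DP

open Polynomial NumberField IsDedekindDomain
open Pool.Agent.Y707.PC (IsConstSq valueAt)
open Pool.Agent.Y707.DK (numFactors traceOne rs)

section
variable {K : Type} [Field K] {k l : ℕ}

/-- The polynomial `D_{2m+1}(X, a) + w`, with the coefficient `a` mapped by `ψ`. -/
noncomputable def pol (m : ℕ) (a : MvPolynomial (Fin k) (𝓞 K)) {B : Type} [CommRing B]
    (ψ : MvPolynomial (Fin k) (𝓞 K) →+* B) (w : B) : B[X] :=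
  dickson 1 (ψ a) (2 * m + 1) + C w

/-- The conditions on the data: no product of some of the `G_i` is a constant times a square, the genus
`m` is positive, and `a` is not zero. -/
structure IsDickson (m : ℕ) (G : Fin l → MvPolynomial (Fin k) (𝓞 K))
    (a : MvPolynomial (Fin k) (𝓞 K)) : Prop where
  independent : ∀ S : Finset (Fin l), S.Nonempty → ¬ IsConstSq (∏ i ∈ S, G i)
  positive : 1 ≤ m
  nonzero : a ≠ 0

/-- The number of the irreducible factors over `E` of the polynomial of degree `m` with the roots
`2 cos (2 π k / (2 m + 1))`, `1 ≤ k ≤ m`. -/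
noncomputable def endRank (m : ℕ) (E : IntermediateField K (AlgebraicClosure K)) : ℕ :=
  numFactors ((psi m).map (Int.castRingHom E))

/-- The generic member over `M(w)`, at the point `ξ` with coordinates in the field `M ⊇ E`. -/
noncomputable def genericCurve (m : ℕ) (a : MvPolynomial (Fin k) (𝓞 K))
    (E : IntermediateField K (AlgebraicClosure K)) {M : Type} [Field M] [Algebra E M]
    (ξ : Fin k → M) : (RatFunc M)[X] :=
  pol m a ((algebraMap M (RatFunc M)).comp (valueAt E ξ)) RatFunc.X

/-- The member `D_{2m+1}(X, a(x)) + w` at the point `(x, w)` over the field `κ`. -/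
noncomputable def memberCurve (m : ℕ) (a : MvPolynomial (Fin k) (𝓞 K)) {κ : Type} [Field κ]
    (φ : 𝓞 K →+* κ) (x : Fin k → κ) (w : κ) : κ[X] :=
  pol m a (MvPolynomial.eval₂Hom φ x) w

/-- The trace of the Frobenius on `H²` of `C × C`, for the smooth projective curve `C` with the equation
`Y ^ 2 = f(X)`, `f` monic of odd degree, over the finite field `κ` with `q` elements:
`H²(C × C)` is the sum of `H²(C) ⊗ H⁰(C)`, `H⁰(C) ⊗ H²(C)` and `H¹(C) ⊗ H¹(C)`, so that it is
`2 q + a ^ 2`, where `a` is the trace on `H¹(C)`. -/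
noncomputable def traceSquare {κ : Type} [Field κ] (f : κ[X]) : ℝ :=
  2 * (Nat.card κ : ℝ) + traceOne f ^ 2

/-- The points `(x, y, w)` of the base over the field `κ` of characteristic other than two, with nonzero
`y_i`, over which the curve is smooth. -/
def goodBase (m : ℕ) (G : Fin l → MvPolynomial (Fin k) (𝓞 K)) (a : MvPolynomial (Fin k) (𝓞 K))
    {κ : Type} [Field κ] (φ : 𝓞 K →+* κ) : Set ((Fin k → κ) × (Fin l → κ) × κ) :=
  {P | (2 : κ) ≠ 0 ∧ (∀ i, P.2.1 i ^ 2 = MvPolynomial.eval₂Hom φ P.1 (G i) ∧ P.2.1 i ≠ 0) ∧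
    (memberCurve m a φ P.1 P.2.2).Separable}

/-- The fibre average `q^{-(k + 1)} ∑ b(fibre)` of the traces on `H²` of the squares `C × C` over the
good points of the base, of dimension `k + 1`. -/
noncomputable def averageSquare (m : ℕ) (G : Fin l → MvPolynomial (Fin k) (𝓞 K))
    (a : MvPolynomial (Fin k) (𝓞 K)) {κ : Type} [Field κ] (φ : 𝓞 K →+* κ) : ℝ :=
  ((Nat.card κ : ℝ) ^ (k + 1))⁻¹ *
    ∑ᶠ P ∈ goodBase m G a φ, traceSquare (memberCurve m a φ P.1 P.2.2)

end

/-- The coordinate ring `R[x, y] / (y ^ 2 - f(x))` of the affine curve `y ^ 2 = f(x)` over `R`. -/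
abbrev Affine {R : Type} [CommRing R] (f : R[X]) : Type := AdjoinRoot (X ^ 2 - C f : R[X][X])

/-- The class group of the domain `A` is free of rank `r`. -/
def ClassFree (A : Type) [CommRing A] [IsDomain A] (r : ℕ) : Prop :=
  Module.Free ℤ (Additive (ClassGroup A)) ∧ Module.Finite ℤ (Additive (ClassGroup A)) ∧
    Module.finrank ℤ (Additive (ClassGroup A)) = r

/-- The Néron-Severi group of `C × C` has rank `r + 2`, for the curve `C` with the equation
`y ^ 2 = f(x)` over the field `L`, with one point at infinity: the class group of the coordinate ring of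
the affine part `C°` of `C` is trivial, so that `Pic⁰ C` is trivial, and the class group of the
coordinate ring of `C° × C°`, the ring with the generators `x, y, z, v` and the relations
`y ^ 2 = f(x)` and `v ^ 2 = f(z)`, is free of rank `r`.  (It is the group of the correspondences from
`C` to `C` modulo the fibres, that is the group of the endomorphisms over `L` of the Jacobian of `C`; the
other part of the Néron-Severi group is generated by the two fibres over infinity.) -/
def SquarePicard {L : Type} [Field L] (f : L[X]) (r : ℕ) : Prop :=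
  ∃ _ : IsDomain (Affine f), Subsingleton (Additive (ClassGroup (Affine f))) ∧
    ∃ _ : IsDomain (Affine (overRing f)), ClassFree (Affine (overRing f)) r

section
variable {K : Type} [Field K] {k l m : ℕ} {G : Fin l → MvPolynomial (Fin k) (𝓞 K)}
  {a : MvPolynomial (Fin k) (𝓞 K)}

theorem pol_map {B D : Type} [CommRing B] [CommRing D]
    (ψ : MvPolynomial (Fin k) (𝓞 K) →+* B) (w : B) (θ : B →+* D) :
    (pol m a ψ w).map θ = pol m a (θ.comp ψ) (θ w) := by
  unfold pol
  rw [Polynomial.map_add, map_dickson, Polynomial.map_C]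
  rfl

theorem pol_deg {B : Type} [CommRing B] [Nontrivial B]
    (ψ : MvPolynomial (Fin k) (𝓞 K) →+* B) (w : B) :
    (pol m a ψ w).Monic ∧ (pol m a ψ w).natDegree = 2 * m + 1 := by
  obtain ⟨h1, h2⟩ := dickson_deg (ψ a) (2 * m)
  have h3 : (C w).natDegree < (dickson 1 (ψ a) (2 * m + 1)).natDegree := by
    rw [natDegree_C, h2]
    omega
  unfold pol
  exact ⟨h1.add_of_left (degree_lt_degree h3), by
    rw [natDegree_add_eq_left_of_natDegree_lt h3, h2]⟩

theorem pol_fw {M L : Type} [Field M] [Field L] [Algebra M L]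
    (ψ : MvPolynomial (Fin k) (𝓞 K) →+* M) (ω : L) :
    pol m a ((algebraMap M L).comp ψ) ω = fw ω (dickson 1 (ψ a) (2 * m + 1)) := by
  unfold pol fw
  rw [Pool.Agent.Y707.PC.up_def, map_dickson]
  rfl

end

section
variable {K : Type} [Field K] [NumberField K] {k l m : ℕ} {G : Fin l → MvPolynomial (Fin k) (𝓞 K)}
  {a : MvPolynomial (Fin k) (𝓞 K)}

variable (m a) in
/-- the discriminant of the generic member -/
noncomputable def pdisc : (MvPolynomial (Fin k) (𝓞 K))[X] :=
  rs m (pol m a (C : MvPolynomial (Fin k) (𝓞 K) →+* _) X)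

theorem pdisc_ne : pdisc m a ≠ 0 := by
  intro h0
  let A := MvPolynomial (Fin k) (𝓞 K)
  let M := FractionRing A
  let L := RatFunc M
  let θ : A[X] →+* L := (algebraMap M[X] L).comp (mapRingHom (algebraMap A M))
  have hinj : Function.Injective (algebraMap A M) := IsFractionRing.injective A M
  have hM0 : CharZero M := charZero_of_injective_algebraMap hinj
  have hL0 : CharZero L := charZero_of_injective_algebraMap (algebraMap M L).injective
  have h1 := Pool.Agent.Y707.DK.rs_map (g := m) (pol m a (C : A →+* A[X]) X) θ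
  have h0' : rs m (pol m a (C : A →+* A[X]) X) = 0 := h0
  rw [h0', map_zero, pol_map] at h1
  have hX : θ X = RatFunc.X := by
    show (algebraMap M[X] L) ((X : A[X]).map (algebraMap A M)) = _
    rw [Polynomial.map_X, RatFunc.algebraMap_X]
  have hC' : θ.comp C = (algebraMap M L).comp (algebraMap A M) := RingHom.ext fun z => by
    show (algebraMap M[X] L) ((C z : A[X]).map (algebraMap A M)) = _
    rw [Polynomial.map_C]
    rfl
  rw [hX, hC', pol_fw] at h1
  have hd := dickson_deg (algebraMap A M a) (2 * m)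
  have hodd : Odd (dickson 1 (algebraMap A M a) (2 * m + 1)).natDegree := by
    rw [hd.2]
    exact ⟨m, rfl⟩
  have h2 := fw_sep (w := (RatFunc.X : L)) (Pool.Agent.Y707.PC.transc_X (M := M)) hodd
  have h3 := (fw_deg (w := (RatFunc.X : L)) hodd).2
  rw [hd.2] at h3
  exact Pool.Agent.Y707.DK.rs_ne h3 h2 h1.symm

theorem pdisc_eval {κ : Type} [Field κ] (φ : 𝓞 K →+* κ) (x : Fin k → κ) (w : κ) :
    ((pdisc m a).map (MvPolynomial.eval₂Hom φ x)).eval w = rs m (memberCurve m a φ x w) := by
  have h1 := Pool.Agent.Y707.DK.rs_map (g := m)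
    (pol m a (C : MvPolynomial (Fin k) (𝓞 K) →+* _) X)
    (eval₂RingHom (MvPolynomial.eval₂Hom φ x) w)
  rw [pol_map] at h1
  have e1 : (eval₂RingHom (MvPolynomial.eval₂Hom φ x) w).comp C = MvPolynomial.eval₂Hom φ x :=
    RingHom.ext fun p => by rw [RingHom.comp_apply, coe_eval₂RingHom, eval₂_C]
  have e2 : eval₂RingHom (MvPolynomial.eval₂Hom φ x) w X = w := by
    rw [coe_eval₂RingHom, eval₂_X]
  rw [e1, e2] at h1
  rw [eval_map]
  exact h1

end

end Pool.Agent.Y707.DP
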