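import Mathlib

/-! Dickson polynomials: the factorization of `D_n(z, a) - D_n(x, a)`. -/

set_option autoImplicit false
set_option maxHeartbeats 400000

namespace Pool.Agent.Y707.DP

open Polynomial

/-- The monic polynomial of degree `m` with the roots `2 cos (2 π k / (2 m + 1))`, `1 ≤ k ≤ m`. -/
noncomputable def psi : ℕ → ℤ[X]
  | 0 => 1
  | 1 => X + 1
  | n + 2 => X * psi (n + 1) - psi n

theorem psi_two (n : ℕ) : psi (n + 2) = X * psi (n + 1) - psi n := rfl

theorem psi_monic_deg (n : ℕ) : (psi n).Monic ∧ (psi n).natDegree = n := by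
  induction n using Nat.twoStepInduction with
  | zero => exact ⟨monic_one, natDegree_one⟩
  | one =>
    have h : psi 1 = X + C 1 := by rw [C_1]; rfl
    rw [h]
    exact ⟨monic_X_add_C 1, natDegree_X_add_C 1⟩
  | more n h1 h2 =>
    have h3 : (X * psi (n + 1)).natDegree = n + 2 := by
      rw [natDegree_X_mul h2.1.ne_zero, h2.2]
    have h4 : (psi n).natDegree < (X * psi (n + 1)).natDegree := by
      rw [h3, h1.2]
      omega
    rw [psi_two]
    refine ⟨(monic_X.mul h2.1).sub_of_left (degree_lt_degree h4), ?_⟩
    rw [natDegree_sub_eq_left_of_natDegree_lt h4, h3]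

section
variable {R : Type} [CommRing R]

theorem dickson_eval {u v a : R} (h : u * v = a) (n : ℕ) :
    (dickson 1 a n).eval (u + v) = u ^ n + v ^ n := by
  induction n using Nat.twoStepInduction with
  | zero =>
    rw [dickson_zero, pow_zero, pow_zero]
    simp
    norm_num
  | one => rw [dickson_one, eval_X, pow_one, pow_one]
  | more n h1 h2 =>
    rw [dickson_add_two, eval_sub, eval_mul, eval_mul, h1, h2, eval_X, eval_C, ← h]
    ring

theorem psi_eval {u v : R} (h : u * v = 1) (m : ℕ) :
    (u - 1) * ((psi m).map (Int.castRingHom R)).eval (u + v) = u ^ (m + 1) - v ^ m := by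
  induction m using Nat.twoStepInduction with
  | zero =>
    show (u - 1) * (((1 : ℤ[X])).map (Int.castRingHom R)).eval (u + v) = _
    rw [Polynomial.map_one, eval_one]
    ring
  | one =>
    show (u - 1) * ((((X : ℤ[X]) + 1)).map (Int.castRingHom R)).eval (u + v) = _
    rw [Polynomial.map_add, Polynomial.map_X, Polynomial.map_one, eval_add, eval_X, eval_one]
    linear_combination h
  | more n h1 h2 =>
    rw [psi_two, Polynomial.map_sub, Polynomial.map_mul, Polynomial.map_X, eval_sub, eval_mul,
      eval_X]
    have e : (u - 1) * ((u + v) * ((psi (n + 1)).map (Int.castRingHom R)).eval (u + v) -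
        ((psi n).map (Int.castRingHom R)).eval (u + v)) =
        (u + v) * ((u - 1) * ((psi (n + 1)).map (Int.castRingHom R)).eval (u + v)) -
        (u - 1) * ((psi n).map (Int.castRingHom R)).eval (u + v) := by ring
    rw [e, h1, h2]
    linear_combination (u ^ (n + 1) - v ^ n) * h

/-- the Dickson polynomial of degree `2 m + 1` -/
theorem dickson_deg [Nontrivial R] (a : R) (n : ℕ) :
    (dickson 1 a (n + 1)).Monic ∧ (dickson 1 a (n + 1)).natDegree = n + 1 := by
  induction n using Nat.twoStepInduction with
  | zero =>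
    rw [zero_add, dickson_one]
    exact ⟨monic_X, natDegree_X⟩
  | one =>
    have h : dickson 1 a (1 + 1) = X ^ 2 - C (2 * a) := by
      rw [dickson_add_two, dickson_zero, zero_add, dickson_one]
      push_cast
      rw [C_mul, map_ofNat]
      ring
    rw [h]
    exact ⟨monic_X_pow_sub_C _ two_ne_zero, natDegree_X_pow_sub_C⟩
  | more n h1 h2 =>
    have h3 : (X * dickson 1 a (n + 1 + 1)).natDegree = n + 2 + 1 := by
      rw [natDegree_X_mul h2.1.ne_zero, h2.2]
    have h4 : (C a * dickson 1 a (n + 1)).natDegree < (X * dickson 1 a (n + 1 + 1)).natDegree := by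
      refine (natDegree_C_mul_le _ _).trans_lt ?_
      rw [h3, h1.2]
      omega
    have h5 : dickson 1 a (n + 2 + 1) = X * dickson 1 a (n + 1 + 1) - C a * dickson 1 a (n + 1) :=
      dickson_add_two 1 a (n + 1)
    rw [h5]
    refine ⟨(monic_X.mul h2.1).sub_of_left (degree_lt_degree h4), ?_⟩
    rw [natDegree_sub_eq_left_of_natDegree_lt h4, h3]

end

section
variable {F : Type} [Field F]

/-- **The factorization at a point.** -/
theorem fact_eval {a u v u' v' : F} (hu : u * u' = a) (hv : v * v' = a) (ha : a ≠ 0) (m : ℕ) :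
    (v + v' - (u + u')) * (a ^ m *
      (((psi m).map (Int.castRingHom F)).eval (v / u + u / v) *
        ((psi m).map (Int.castRingHom F)).eval (u * v / a + a / (u * v)))) =
      (v ^ (2 * m + 1) + v' ^ (2 * m + 1)) - (u ^ (2 * m + 1) + u' ^ (2 * m + 1)) := by
  have hu0 : u ≠ 0 := by
    rintro rfl
    exact ha (by rw [← hu, zero_mul])
  have hv0 : v ≠ 0 := by
    rintro rfl
    exact ha (by rw [← hv, zero_mul])
  have h1 := psi_eval (R := F) (u := v / u) (v := u / v) (by field_simp) m
  have h2 := psi_eval (R := F) (u := u * v / a) (v := a / (u * v)) (by field_simp) m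
  have eu : u' = a / u := by
    rw [eq_div_iff hu0, mul_comm]
    exact hu
  have ev : v' = a / v := by
    rw [eq_div_iff hv0, mul_comm]
    exact hv
  have e1 : (v + v' - (u + u')) = (v / u - 1) * (u * v / a - 1) * (a / v) := by
    rw [eu, ev]
    field_simp
    ring
  rw [e1]
  have e2 : (v / u - 1) * (u * v / a - 1) * (a / v) * (a ^ m *
      (((psi m).map (Int.castRingHom F)).eval (v / u + u / v) *
        ((psi m).map (Int.castRingHom F)).eval (u * v / a + a / (u * v)))) =
      a ^ m * (a / v) * (((v / u - 1) * ((psi m).map (Int.castRingHom F)).eval (v / u + u / v)) *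
        ((u * v / a - 1) * ((psi m).map (Int.castRingHom F)).eval (u * v / a + a / (u * v)))) := by
    ring
  rw [e2, h1, h2, eu, ev]
  simp only [div_pow, mul_pow]
  field_simp
  ring

end

end Pool.Agent.Y707.DP
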