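import Pool.Agent.Y707.DP.Asy
import Pool.Agent.Y707.DK.Res

/-! **The squares of the curves `Y ^ 2 = D_n(X, a) + w`.** -/

set_option autoImplicit false
set_option maxHeartbeats 400000

namespace Pool.Agent.Y707.DP

open Polynomial NumberField IsDedekindDomain Filter
open Pool.Agent.Y707.PC
open Pool.Agent.Y707.PR (HasResidue)
open Pool.Agent.Y707.DK (numFactors nrv nr nrv_le residue_nr constants)
open Pool.Agent.Y707.SF (bound_all residue_two)
open Pool.Agent.H921R2.TatePole (nm two_le_nm)

/-- `psi` over a ring -/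
noncomputable def psiO (R : Type) [CommRing R] (m : ℕ) : R[X] := (psi m).map (Int.castRingHom R)

theorem nr_psi {F : Type} [Field F] (m : ℕ) {κ : Type} [Field κ] (φ : 𝓞 F →+* κ) :
    nr (psiO (𝓞 F) m) φ = (ts κ m).card := by
  have h1 : ∀ t : κ, (psiO (𝓞 F) m).eval₂ φ t = 0 ↔ t ∈ ts κ m := by
    intro t
    rw [mem_ts]
    unfold psiO psiF
    rw [eval₂_map, eval_map]
    have : φ.comp (Int.castRingHom (𝓞 F)) = Int.castRingHom κ := RingHom.ext_int _ _
    rw [this]
  unfold nr
  simp only [h1]
  rw [Nat.card_eq_fintype_card, Fintype.card_coe]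

section
variable {K : Type} [Field K] [NumberField K] {k l m : ℕ}
  {G : Fin l → MvPolynomial (Fin k) (𝓞 K)} {a : MvPolynomial (Fin k) (𝓞 K)}

/-- **The residue.** -/
theorem product_residue (h : IsDickson m G a)
    (E : IntermediateField K (AlgebraicClosure K)) [NumberField E]
    (R : Finset (HeightOneSpectrum (𝓞 E))) :
    HasResidue R (fun v => averageSquare m G a
      ((Ideal.Quotient.mk v.asIdeal).comp (algebraMap (𝓞 K) (𝓞 E)))) 2 (endRank m E + 2) := by
  classical
  obtain ⟨B, c, hB, hc, hasy⟩ := average_asy h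
  have hD : (psiO (𝓞 E) m).Monic := (psi_monic_deg m).1.map _
  have hDE : (psiO (𝓞 E) m).map (algebraMap (𝓞 E) E) = psiF E m := by
    unfold psiO psiF
    rw [Polynomial.map_map]
    congr 1
  have hE0 : CharZero E := charZero_of_injective_algebraMap (algebraMap K E).injective
  have hs : ((psiO (𝓞 E) m).map (algebraMap (𝓞 E) E)).Separable := by
    rw [hDE]
    exact psi_sep two_ne_zero (by exact_mod_cast Nat.succ_ne_zero (2 * m))
  set z : HeightOneSpectrum (𝓞 E) → ℝ := fun v => (nrv (psiO (𝓞 E) m) v : ℝ) with hz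
  have hzb : ∀ v, |z v| ≤ (psiO (𝓞 E) m).natDegree := fun v => by
    rw [hz, Nat.abs_cast]
    exact_mod_cast nrv_le hD v
  have hae : ∀ᶠ v : HeightOneSpectrum (𝓞 E) in cofinite,
      |averageSquare m G a ((Ideal.Quotient.mk v.asIdeal).comp (algebraMap (𝓞 K) (𝓞 E))) -
        nm v * (2 + z v)| ≤ B * Real.sqrt (nm v) := by
    have hc' : algebraMap (𝓞 K) (𝓞 E) c ≠ 0 := by
      intro h0
      exact hc ((map_eq_zero_iff _ (FaithfulSMul.algebraMap_injective (𝓞 K) (𝓞 E))).1 h0)
    filter_upwards [ae_notMem hc'] with v hv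
    have hfin := Pool.Agent.H341R2.finite_v v
    let _ := Fintype.ofFinite (𝓞 E ⧸ v.asIdeal)
    have h3 := hasy (𝓞 E ⧸ v.asIdeal) ((Ideal.Quotient.mk v.asIdeal).comp
      (algebraMap (𝓞 K) (𝓞 E))) (by
        rw [RingHom.comp_apply, Ne, Ideal.Quotient.eq_zero_iff_mem]
        exact hv)
    have e1 : Fintype.card (𝓞 E ⧸ v.asIdeal) = nm v := by
      rw [← Nat.card_eq_fintype_card]
      rfl
    have e2 : nrv (psiO (𝓞 E) m) v = (ts (𝓞 E ⧸ v.asIdeal) m).card := nr_psi m _
    rw [e1, ← e2] at h3
    exact h3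
  obtain ⟨B', hB'⟩ := bound_all hae
  have hres := residue_nr hD hs (b := z) (B := 0)
    (Filter.Eventually.of_forall fun v => by
      simp only [hz, sub_self, abs_zero, zero_mul, le_refl]) hzb 2 R
  have h5 := residue_two hzb hB' R (m := 2 + numFactors ((psiO (𝓞 E) m).map (algebraMap (𝓞 E) E)))
    hres
  have e3 : ((2 + numFactors ((psiO (𝓞 E) m).map (algebraMap (𝓞 E) E)) : ℤ) : ℝ) =
      (endRank m E : ℝ) + 2 := by
    rw [hDE]
    unfold endRank psiF
    push_cast
    ring
  rw [e3] at h5
  exact h5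

/-- **The square of the generic curve.** -/
theorem product_algebraic (h : IsDickson m G a)
    (E : IntermediateField K (AlgebraicClosure K)) {M : Type} [Field M] [Algebra E M]
    {ξ : Fin k → M} {η : Fin l → M} (hM : IsFunctionField G E ξ η) :
    IsSmoothCurve m (genericCurve m a E ξ) ∧
      SquarePicard (genericCurve m a E ξ) (endRank m E) := by
  have hconst := constants h.independent E hM
  obtain ⟨hξ, -, -⟩ := hM
  set ι : 𝓞 K →+* E := (algebraMap K E).comp (algebraMap (𝓞 K) K) with hι
  have hιi : Function.Injective ι := (algebraMap K E).injective.comp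
    (IsFractionRing.injective (𝓞 K) K)
  have hmi : Function.Injective (MvPolynomial.map (σ := Fin k) ι) :=
    MvPolynomial.map_injective _ hιi
  have hinj : Function.Injective (MvPolynomial.aeval ξ : MvPolynomial (Fin k) E →ₐ[E] M) := hξ
  have hv : ∀ p, valueAt E ξ p = MvPolynomial.aeval ξ (MvPolynomial.map ι p) := by
    intro p
    rw [valueAt_eq]
    rfl
  have ha : valueAt E ξ a ≠ 0 := by
    intro h0
    rw [hv] at h0
    apply h.nonzero
    apply hmi
    apply hinj
    rw [h0, map_zero, map_zero]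
  have hE0 : CharZero E := charZero_of_injective_algebraMap (algebraMap K E).injective
  have hM0 : CharZero M := charZero_of_injective_algebraMap (algebraMap E M).injective
  have hgen : genericCurve m a E ξ =
      fw (RatFunc.X : RatFunc M) (dickson 1 (valueAt E ξ a) (2 * m + 1)) := pol_fw _ _
  have hd := dickson_deg (valueAt E ξ a) (2 * m)
  have hodd : Odd (dickson 1 (valueAt E ξ a) (2 * m + 1)).natDegree := by
    rw [hd.2]
    exact ⟨m, rfl⟩
  have h1 := pol_deg (m := m) (a := a) ((algebraMap M (RatFunc M)).comp (valueAt E ξ))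
    (RatFunc.X : RatFunc M)
  refine ⟨⟨h1.1, h1.2, ?_⟩, ?_⟩
  · rw [hgen]
    exact fw_sep transc_X hodd
  · rw [hgen]
    exact alg_product hconst ha m

end

end Pool.Agent.Y707.DP
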