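import Pool.Agent.Y707.DP.Rt

/-! The irreducible factors of `D_n(z, a) - D_n(x, a)`. -/

set_option autoImplicit false
set_option maxHeartbeats 100000

namespace Pool.Agent.Y707.DP

open Polynomial

section
variable {F : Type} [Field F]

theorem qq_eq (a T : F) : qq a T =
    X ^ 2 + (C (-(C T * X)) * X + C (X ^ 2 + C ((T ^ 2 - 4) * a))) := by
  unfold qq
  rw [C_neg]
  ring

theorem qq_deg (a T : F) : (qq a T).Monic ∧ (qq a T).natDegree = 2 := by
  have h : (C (-(C T * X)) * X + C (X ^ 2 + C ((T ^ 2 - 4) * a)) : F[X][X]).natDegree <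
      (X ^ 2 : F[X][X]).natDegree := by
    rw [natDegree_X_pow]
    refine (natDegree_linear_le).trans_lt ?_
    norm_num
  rw [qq_eq]
  refine ⟨(monic_X_pow 2).add_of_left (degree_lt_degree h), ?_⟩
  rw [natDegree_add_eq_left_of_natDegree_lt h, natDegree_X_pow]

theorem qq_irr {a T : F} (h2 : (2 : F) ≠ 0) (ha : a ≠ 0) (hT : T ≠ 2 ∧ T ≠ -2) :
    Irreducible (qq a T) := by
  obtain ⟨hm, hd⟩ := qq_deg a T
  rw [hm.irreducible_iff_roots_eq_zero_of_degree_le_three (by rw [hd]) (by rw [hd]; norm_num)]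
  apply Multiset.eq_zero_of_forall_notMem
  intro p hp
  rw [mem_roots hm.ne_zero, IsRoot.def] at hp
  unfold qq at hp
  simp only [eval_add, eval_sub, eval_mul, eval_pow, eval_X, eval_C] at hp
  have hc : (T ^ 2 - 4 : F) ≠ 0 := by
    have : (T ^ 2 - 4 : F) = (T - 2) * (T - -2) := by ring
    rw [this]
    exact mul_ne_zero (sub_ne_zero.2 hT.1) (sub_ne_zero.2 hT.2)
  have h4 : (4 : F) ≠ 0 := by
    have : (4 : F) = 2 * 2 := by norm_num
    rw [this]
    exact mul_ne_zero h2 h2
  have h1 : (2 * p - C T * X) * (2 * p - C T * X) =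
      C (T ^ 2 - 4) * (X ^ 2 - C (4 * a)) := by
    have e4 : (C (4 * a) : F[X]) = 4 * C a := by rw [C_mul, map_ofNat]
    have e5 : (C (T ^ 2 - 4) : F[X]) = C T ^ 2 - 4 := by rw [C_sub, C_pow, map_ofNat]
    rw [C_mul, e5] at hp
    rw [e4, e5]
    linear_combination 4 * hp
  have hsep : (X ^ 2 - C (4 * a) : F[X]).Separable :=
    separable_X_pow_sub_C _ (by push_cast; exact h2) (mul_ne_zero h4 ha)
  have hu : IsUnit (C (T ^ 2 - 4) : F[X]) := isUnit_C.2 (isUnit_iff_ne_zero.2 hc)
  have h3 : IsUnit (2 * p - C T * X) := by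
    apply hsep.squarefree
    obtain ⟨w, hw⟩ := hu
    refine ⟨(w⁻¹ : (F[X])ˣ), ?_⟩
    rw [h1, ← hw, mul_comm (w : F[X]), mul_assoc, Units.mul_inv, mul_one]
  have h5 : IsUnit (X ^ 2 - C (4 * a) : F[X]) := by
    have := h3.mul h3
    rw [h1] at this
    exact isUnit_of_mul_isUnit_right this
  have h6 := natDegree_eq_zero_of_isUnit h5
  rw [natDegree_X_pow_sub_C] at h6
  exact absurd h6 two_ne_zero

theorem qq_coeff (a T : F) : (qq a T).coeff 1 = -(C T * X) := by
  rw [qq_eq, coeff_add, coeff_X_pow, if_neg (by norm_num), coeff_add, coeff_C_mul, coeff_X_one,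
    coeff_C, if_neg (by norm_num), zero_add, mul_one, add_zero]

theorem qq_dvd {a T T' : F} (h : qq a T ∣ qq a T') : T = T' := by
  obtain ⟨hm, hd⟩ := qq_deg a T
  obtain ⟨hm', hd'⟩ := qq_deg a T'
  obtain ⟨c, hc⟩ := h
  have hcm : c.Monic := hm.of_mul_monic_left (by rw [← hc]; exact hm')
  have h3 := hm.natDegree_mul hcm
  rw [← hc, hd, hd'] at h3
  have h4 : c = 1 := eq_one_of_monic_natDegree_zero hcm (by omega)
  rw [h4, mul_one] at hc
  have h2 : (qq a T').coeff 1 = (qq a T).coeff 1 := by rw [hc]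
  rw [qq_coeff, qq_coeff] at h2
  have h5 : (C T' * X : F[X]) = C T * X := neg_injective h2
  have h6 : (C T' : F[X]) = C T := mul_right_cancel₀ (X_ne_zero : (X : F[X]) ≠ 0) h5
  exact (C_injective h6).symm

theorem qq_map {F' : Type} [Field F'] (σ : F →+* F') (a T : F) :
    (qq a T).map (mapRingHom σ) = qq (σ a) (σ T) := by
  unfold qq
  simp only [Polynomial.map_add, Polynomial.map_sub, Polynomial.map_mul, Polynomial.map_pow,
    Polynomial.map_X, Polynomial.map_C, coe_mapRingHom, map_mul, map_sub, map_pow, map_ofNat,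
    Polynomial.map_ofNat]

theorem prod_dvd {a : F} (h2 : (2 : F) ≠ 0) (ha : a ≠ 0) {R : Finset F}
    (hR : ∀ T ∈ R, T ≠ 2 ∧ T ≠ -2) {G : F[X][X]} (h : ∀ T ∈ R, qq a T ∣ G) :
    ∏ T ∈ R, qq a T ∣ G := by
  apply Finset.prod_dvd_of_isRelPrime
  · intro T hT T' hT' hne
    exact ((qq_irr h2 ha (hR T hT)).isRelPrime_iff_not_dvd).2 fun h3 => hne (qq_dvd h3)
  · exact h

theorem prod_deg (a : F) (R : Finset F) :
    (∏ T ∈ R, qq a T).Monic ∧ (∏ T ∈ R, qq a T).natDegree = 2 * R.card := by
  refine ⟨monic_prod_of_monic _ _ fun T _ => (qq_deg a T).1, ?_⟩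
  rw [natDegree_prod_of_monic _ _ fun T _ => (qq_deg a T).1,
    Finset.sum_congr rfl fun T _ => (qq_deg a T).2, Finset.sum_const, smul_eq_mul, mul_comm]

end

section
variable {M : Type} [Field M] [CharZero M]

theorem conj_map (σ : AlgebraicClosure M ≃ₐ[M] AlgebraicClosure M) (G : M[X][X]) :
    (G.map (mapRingHom (algebraMap M (AlgebraicClosure M)))).map
      (mapRingHom (σ : AlgebraicClosure M →+* AlgebraicClosure M)) =
    G.map (mapRingHom (algebraMap M (AlgebraicClosure M))) := by
  rw [Polynomial.map_map, mapRingHom_comp]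
  congr 2
  exact RingHom.ext fun z => σ.commutes z

/-- **Descent of the factors.** -/
theorem exists_desc {a : M} {ψ : M[X]} {R : Finset (AlgebraicClosure M)}
    (hR : ∀ T, T ∈ R ↔ (ψ.map (algebraMap M (AlgebraicClosure M))).eval T = 0) :
    ∃ P : M[X][X], P.map (mapRingHom (algebraMap M (AlgebraicClosure M))) =
      ∏ T ∈ R, qq (algebraMap M (AlgebraicClosure M) a) T ∧ P.Monic := by
  classical
  have hgal : IsGalois M (AlgebraicClosure M) := inferInstance
  obtain ⟨Q, hQ⟩ : ∃ Q, Q = ∏ T ∈ R, qq (algebraMap M (AlgebraicClosure M) a) T := ⟨_, rfl⟩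
  have hfix : ∀ σ : AlgebraicClosure M ≃ₐ[M] AlgebraicClosure M,
      Q.map (mapRingHom (σ : AlgebraicClosure M →+* AlgebraicClosure M)) = Q := by
    intro σ
    rw [hQ, Polynomial.map_prod]
    have h1 : ∀ T, T ∈ R → σ T ∈ R := by
      intro T hT
      rw [hR, eval_map, ← aeval_def] at hT ⊢
      have h2 := aeval_algHom_apply (σ : AlgebraicClosure M →ₐ[M] AlgebraicClosure M) T ψ
      rw [hT, map_zero] at h2
      exact h2
    refine Finset.prod_bij (fun T _ => σ T) (fun T hT => h1 T hT)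
      (fun T _ T' _ h => σ.injective h) (fun T hT => ?_) (fun T _ => ?_)
    · have himg : R.image σ = R := by
        apply Finset.eq_of_subset_of_card_le
        · intro T hT
          obtain ⟨T', hT', rfl⟩ := Finset.mem_image.1 hT
          exact h1 T' hT'
        · rw [Finset.card_image_of_injective _ σ.injective]
      rw [← himg] at hT
      obtain ⟨T', hT', rfl⟩ := Finset.mem_image.1 hT
      exact ⟨T', hT', rfl⟩
    · rw [qq_map]
      congr 1
      exact σ.commutes a
  have hl : Q ∈ lifts (mapRingHom (algebraMap M (AlgebraicClosure M))) := by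
    rw [lifts_iff_coeff_lifts]
    intro i
    have h1 : Q.coeff i ∈ lifts (algebraMap M (AlgebraicClosure M)) := by
      rw [lifts_iff_coeff_lifts]
      intro j
      rw [InfiniteGalois.mem_range_algebraMap_iff_fixed]
      intro σ
      have h2 := congrArg (fun P => (P.coeff i).coeff j) (hfix σ)
      simp only [coeff_map, coe_mapRingHom] at h2
      exact h2
    obtain ⟨g, hg⟩ := (mem_lifts _).1 h1
    exact ⟨g, hg⟩
  have hQm : Q.Monic := by
    rw [hQ]
    exact (prod_deg _ _).1
  obtain ⟨P, hP, -, hPm⟩ := lifts_and_degree_eq_and_monic hl hQm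
  exact ⟨P, hP.trans hQ, hPm⟩

/-- **The factors are irreducible.** -/
theorem irr_desc {a : M} (ha : a ≠ 0) {ψ : M[X]} (hψ : Irreducible ψ) (hψm : ψ.Monic)
    {R : Finset (AlgebraicClosure M)}
    (hR : ∀ T, T ∈ R ↔ (ψ.map (algebraMap M (AlgebraicClosure M))).eval T = 0)
    (hR2 : ∀ T ∈ R, T ≠ 2 ∧ T ≠ -2) {P : M[X][X]}
    (hP : P.map (mapRingHom (algebraMap M (AlgebraicClosure M))) =
      ∏ T ∈ R, qq (algebraMap M (AlgebraicClosure M) a) T) (hm : P.Monic) : Irreducible P := by
  classical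
  have h2 : (2 : AlgebraicClosure M) ≠ 0 := two_ne_zero
  have ha' : algebraMap M (AlgebraicClosure M) a ≠ 0 := by
    rw [Ne, map_eq_zero]
    exact ha
  have hinj : Function.Injective (mapRingHom (algebraMap M (AlgebraicClosure M))) := by
    intro p q hpq
    exact Polynomial.map_injective _ (algebraMap M (AlgebraicClosure M)).injective hpq
  -- a root
  obtain ⟨T₀, hT₀⟩ : ∃ T₀, T₀ ∈ R := by
    have h3 : (ψ.map (algebraMap M (AlgebraicClosure M))).degree ≠ 0 := by
      rw [degree_map]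
      exact (degree_pos_of_irreducible hψ).ne'
    obtain ⟨T, hT⟩ := IsAlgClosed.exists_root _ h3
    exact ⟨T, (hR T).2 hT⟩
  have hmin : ∀ T ∈ R, minpoly M T = ψ := by
    intro T hT
    have h3 : aeval T ψ = 0 := by
      rw [aeval_def, ← eval_map]
      exact (hR T).1 hT
    exact (minpoly.eq_of_irreducible_of_monic hψ h3 hψm).symm
  have key : ∀ f g : M[X][X], f.Monic → g.Monic → f * g = P →
      qq (algebraMap M (AlgebraicClosure M) a) T₀ ∣
        f.map (mapRingHom (algebraMap M (AlgebraicClosure M))) → g.natDegree = 0 := by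
    intro f g hf hg hfg hdvd
    have h4 : ∀ T ∈ R, qq (algebraMap M (AlgebraicClosure M) a) T ∣
        f.map (mapRingHom (algebraMap M (AlgebraicClosure M))) := by
      intro T hT
      obtain ⟨σ, hσ⟩ := minpoly.exists_algEquiv_of_root' (K := M) (x := T) (y := T₀)
        (Algebra.IsAlgebraic.isAlgebraic T₀) (by rw [hmin T₀ hT₀, ← hmin T hT]; exact minpoly.aeval _ _)
      have h5 := Polynomial.map_dvd
        (mapRingHom (σ : AlgebraicClosure M →+* AlgebraicClosure M)) hdvd
      rw [conj_map, qq_map] at h5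
      have e1 : (σ : AlgebraicClosure M →+* AlgebraicClosure M)
          (algebraMap M (AlgebraicClosure M) a) = algebraMap M (AlgebraicClosure M) a :=
        σ.commutes a
      have e2 : (σ : AlgebraicClosure M →+* AlgebraicClosure M) T₀ = T := hσ
      rwa [e1, e2] at h5
    have h5 := prod_dvd h2 ha' hR2 h4
    have h6 := natDegree_le_of_dvd h5 (hf.map _).ne_zero
    rw [← hP, hm.natDegree_map, hf.natDegree_map] at h6
    have h7 := hf.natDegree_mul hg
    rw [hfg] at h7
    omega
  rw [hm.irreducible_iff_natDegree]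
  constructor
  · intro h1
    rw [h1, Polynomial.map_one] at hP
    have h3 := (prod_deg (algebraMap M (AlgebraicClosure M) a) R).2
    rw [← hP, natDegree_one] at h3
    have h4 : 0 < R.card := Finset.card_pos.2 ⟨T₀, hT₀⟩
    omega
  · intro f g hf hg hfg
    have h3 : Prime (qq (algebraMap M (AlgebraicClosure M) a) T₀) :=
      (qq_irr h2 ha' (hR2 T₀ hT₀)).prime
    have h4 : qq (algebraMap M (AlgebraicClosure M) a) T₀ ∣
        f.map (mapRingHom (algebraMap M (AlgebraicClosure M))) *
        g.map (mapRingHom (algebraMap M (AlgebraicClosure M))) := by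
      rw [← Polynomial.map_mul, hfg, hP]
      exact Finset.dvd_prod_of_mem _ hT₀
    rcases h3.dvd_or_dvd h4 with h | h
    · exact Or.inr (key f g hf hg hfg h)
    · exact Or.inl (key g f hg hf (by rw [mul_comm]; exact hfg) h)

end

end Pool.Agent.Y707.DP
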