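import Pool.Agent.Y707.DP.Dk

/-! The roots of `psi` and the factorization over algebraically closed fields. -/

set_option autoImplicit false
set_option maxHeartbeats 400000

namespace Pool.Agent.Y707.DP

open Polynomial

section
variable {F : Type} [Field F]

/-- `psi` over a field -/
noncomputable abbrev psiF (F : Type) [Field F] (m : ℕ) : F[X] := (psi m).map (Int.castRingHom F)

theorem psiF_spec (m : ℕ) : (psiF F m).Monic ∧ (psiF F m).natDegree = m :=
  ⟨(psi_monic_deg m).1.map _, by rw [(psi_monic_deg m).1.natDegree_map, (psi_monic_deg m).2]⟩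

open Classical in
/-- the roots of `psi` -/
noncomputable def ts (F : Type) [Field F] (m : ℕ) : Finset F := (psiF F m).roots.toFinset

theorem mem_ts {m : ℕ} {T : F} : T ∈ ts F m ↔ (psiF F m).eval T = 0 := by
  classical
  unfold ts
  rw [Multiset.mem_toFinset, mem_roots (psiF_spec m).1.ne_zero, IsRoot.def]

theorem root_zeta {m : ℕ} {u v : F} (h : u * v = 1) (h1 : u ≠ 1) (hu : u ^ (2 * m + 1) = 1) :
    (psiF F m).eval (u + v) = 0 := by
  have h2 := psi_eval (R := F) h m
  have h3 : u ^ (m + 1) - v ^ m = 0 := by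
    have hu0 : u ^ m ≠ 0 := by
      apply pow_ne_zero
      rintro rfl
      rw [zero_mul] at h
      exact zero_ne_one h
    have h4 : u ^ m * (u ^ (m + 1) - v ^ m) = 0 := by
      have e : u ^ m * (u ^ (m + 1) - v ^ m) = u ^ (2 * m + 1) - (u * v) ^ m := by ring
      rw [e, hu, h, one_pow, sub_self]
    exact (mul_eq_zero.1 h4).resolve_left hu0
  rw [h3] at h2
  exact (mul_eq_zero.1 h2).resolve_left (sub_ne_zero.2 h1)

/-- **The roots.** -/
theorem ts_spec {m : ℕ} {ζ : F} (hζ : IsPrimitiveRoot ζ (2 * m + 1)) (h2 : (2 : F) ≠ 0) :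
    psiF F m = ∏ T ∈ ts F m, (X - C T) ∧ (ts F m).card = m ∧ ∀ T ∈ ts F m, T ≠ 2 ∧ T ≠ -2 := by
  classical
  have hpow : ∀ k : ℕ, k ∈ Finset.Icc 1 m → ζ ^ k * ζ ^ (2 * m + 1 - k) = 1 ∧ ζ ^ k ≠ 1 ∧
      (ζ ^ k) ^ (2 * m + 1) = 1 := by
    intro k hk
    rw [Finset.mem_Icc] at hk
    refine ⟨?_, ?_, ?_⟩
    · rw [← pow_add, Nat.add_sub_cancel' (by omega), hζ.pow_eq_one]
    · exact hζ.pow_ne_one_of_pos_of_lt (by omega) (by omega)
    · rw [← pow_mul, mul_comm, pow_mul, hζ.pow_eq_one, one_pow]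
  let S : Finset F := (Finset.Icc 1 m).image fun k => ζ ^ k + ζ ^ (2 * m + 1 - k)
  have hS : S.card = m := by
    rw [Finset.card_image_of_injOn, Nat.card_Icc, Nat.add_sub_cancel]
    intro k hk l hl hkl
    have hk' := hpow k hk
    have hl' := hpow l hl
    rw [Finset.coe_Icc, Set.mem_Icc] at hk hl
    simp only at hkl
    have h3 : (ζ ^ k - ζ ^ l) * (ζ ^ k * ζ ^ l - 1) = 0 := by
      linear_combination (ζ ^ k * ζ ^ l) * hkl - ζ ^ l * hk'.1 + ζ ^ k * hl'.1
    rcases mul_eq_zero.1 h3 with h4 | h4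
    · exact hζ.pow_inj (by omega) (by omega) (sub_eq_zero.1 h4)
    · rw [← pow_add, sub_eq_zero] at h4
      exact (hζ.pow_ne_one_of_pos_of_lt (by omega) (by omega) h4).elim
  have hsub : S ⊆ ts F m := by
    intro T hT
    obtain ⟨k, hk, rfl⟩ := Finset.mem_image.1 hT
    obtain ⟨h3, h4, h5⟩ := hpow k hk
    exact mem_ts.2 (root_zeta h3 h4 h5)
  have hle : (ts F m).card ≤ (psiF F m).roots.card := Multiset.toFinset_card_le _
  have hle2 : (psiF F m).roots.card ≤ m := by
    have := card_roots' (psiF F m)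
    rwa [(psiF_spec m).2] at this
  have hle3 : m ≤ (ts F m).card := by
    have := Finset.card_le_card hsub
    rwa [hS] at this
  have hcard : (ts F m).card = m := le_antisymm (hle.trans hle2) hle3
  have hSt : S = ts F m := Finset.eq_of_subset_of_card_le hsub (by rw [hS, hcard])
  have hroots : (psiF F m).roots.card = m := le_antisymm hle2 (hle3.trans hle)
  have hnd : (psiF F m).roots.Nodup := by
    rw [← Multiset.toFinset_card_eq_card_iff_nodup, hroots]
    exact hcard
  refine ⟨?_, hcard, ?_⟩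
  · have h3 := prod_multiset_X_sub_C_of_monic_of_roots_card_eq (psiF_spec (F := F) m).1
      (by rw [hroots, (psiF_spec m).2])
    rw [← h3]
    unfold ts
    rw [Finset.prod_eq_multiset_prod, Multiset.toFinset_val, Multiset.dedup_eq_self.2 hnd]
  · intro T hT
    rw [← hSt] at hT
    obtain ⟨k, hk, rfl⟩ := Finset.mem_image.1 hT
    obtain ⟨h3, h4, h5⟩ := hpow k hk
    constructor
    · intro h6
      apply h4
      have h7 : (ζ ^ k - 1) ^ 2 = 0 := by linear_combination ζ ^ k * h6 - h3
      exact sub_eq_zero.1 (pow_eq_zero_iff two_ne_zero |>.1 h7)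
    · intro h6
      have h7 : (ζ ^ k + 1) ^ 2 = 0 := by linear_combination ζ ^ k * h6 - h3
      have h8 : ζ ^ k = -1 := eq_neg_of_add_eq_zero_left (pow_eq_zero_iff two_ne_zero |>.1 h7)
      rw [h8, Odd.neg_one_pow ⟨m, rfl⟩] at h5
      apply h2
      linear_combination -h5

theorem exists_pair [IsAlgClosed F] (x a : F) : ∃ u v : F, u + v = x ∧ u * v = a := by
  have h1 : (X ^ 2 - C x * X + C a : F[X]).degree = 2 := by
    compute_degree!
  obtain ⟨u, hu⟩ := IsAlgClosed.exists_root (X ^ 2 - C x * X + C a : F[X]) (by rw [h1]; norm_num)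
  rw [IsRoot.def, eval_add, eval_sub, eval_pow, eval_mul, eval_C, eval_C, eval_X] at hu
  exact ⟨u, x - u, by ring, by linear_combination -hu⟩

/-- **The factorization at the points, over an algebraically closed field.** -/
theorem fact_point [IsAlgClosed F] {m : ℕ} {a : F} (ha : a ≠ 0)
    (hs : psiF F m = ∏ T ∈ ts F m, (X - C T)) (hc : (ts F m).card = m) (x z : F) :
    (dickson 1 a (2 * m + 1)).eval z - (dickson 1 a (2 * m + 1)).eval x =
      (z - x) * ∏ T ∈ ts F m, (z ^ 2 - T * x * z + (x ^ 2 + (T ^ 2 - 4) * a)) := by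
  obtain ⟨u, u', rfl, hu⟩ := exists_pair x a
  obtain ⟨v, v', rfl, hv⟩ := exists_pair z a
  rw [dickson_eval hu, dickson_eval hv, ← fact_eval hu hv ha m]
  have hu0 : u ≠ 0 := by
    rintro rfl
    exact ha (by rw [← hu, zero_mul])
  have hv0 : v ≠ 0 := by
    rintro rfl
    exact ha (by rw [← hv, zero_mul])
  have eu : u' = a / u := by
    rw [eq_div_iff hu0, mul_comm]
    exact hu
  have ev : v' = a / v := by
    rw [eq_div_iff hv0, mul_comm]
    exact hv
  congr 1
  have h1 : ∀ T ∈ ts F m, (v + v') ^ 2 - T * (u + u') * (v + v') +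
      ((u + u') ^ 2 + (T ^ 2 - 4) * a) =
      a * ((v / u + u / v - T) * (u * v / a + a / (u * v) - T)) := by
    intro T _
    rw [eu, ev]
    field_simp
    ring
  rw [Finset.prod_congr rfl h1, Finset.prod_mul_distrib, Finset.prod_mul_distrib,
    Finset.prod_const, hc]
  have h2 : ∀ t : F, (psiF F m).eval t = ∏ T ∈ ts F m, (t - T) := by
    intro t
    conv_lhs => rw [hs]
    rw [eval_prod]
    exact Finset.prod_congr rfl fun T _ => by rw [eval_sub, eval_X, eval_C]
  rw [← h2, ← h2]

/-- equality of polynomials in two variables -/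
theorem ext_two [Infinite F] {P Q : F[X][X]}
    (h : ∀ x z : F, (P.eval (C z)).eval x = (Q.eval (C z)).eval x) : P = Q := by
  apply eq_of_infinite_eval_eq
  refine Set.Infinite.mono (s := Set.range (C : F → F[X])) ?_
    (Set.infinite_range_of_injective C_injective)
  rintro _ ⟨z, rfl⟩
  exact Polynomial.funext fun x => h x z

/-- the quadratic factors, polynomials in `z` with coefficients in `F[x]` -/
noncomputable def qq (a T : F) : F[X][X] :=
  X ^ 2 - C (C T * X) * X + C (X ^ 2 + C ((T ^ 2 - 4) * a))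

/-- `D(z) - D(x)` -/
noncomputable def dd (a : F) (n : ℕ) : F[X][X] :=
  (dickson 1 a n).map C - C (dickson 1 a n)

/-- **The factorization over an algebraically closed field.** -/
theorem fact_poly [IsAlgClosed F] {m : ℕ} {a : F} (ha : a ≠ 0)
    (hs : psiF F m = ∏ T ∈ ts F m, (X - C T)) (hc : (ts F m).card = m) :
    dd a (2 * m + 1) = (X - C X) * ∏ T ∈ ts F m, qq a T := by
  apply ext_two
  intro x z
  have h1 : (((dickson 1 a (2 * m + 1)).map C : F[X][X]).eval (C z)).eval x =
      (dickson 1 a (2 * m + 1)).eval z := by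
    rw [eval_map, eval₂_at_apply, eval_C]
  unfold dd
  rw [eval_sub, eval_sub, h1, eval_C, fact_point ha hs hc, eval_mul, eval_mul, eval_sub, eval_sub,
    eval_X, eval_C, eval_C, eval_X, eval_prod, eval_prod]
  congr 1
  refine Finset.prod_congr rfl fun T _ => ?_
  unfold qq
  simp only [eval_add, eval_sub, eval_mul, eval_pow, eval_X, eval_C]

end

end Pool.Agent.Y707.DP
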